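import Mathlib

set_option autoImplicit false

namespace Pool.Agent.Helper354.Pcp

open Subgroup

universe u

theorem nonfusion {G : Type u} [Group G] [Finite G] {A B : Subgroup G}
    (hc : Nat.card A * Nat.card B = Nat.card G) (hd : A ⊓ B = ⊥) {a g : G} (ha : a ∈ A)
    (hb : g * a * g⁻¹ ∈ B) : a = 1 := by
  have hcomp : IsComplement' B A :=
    isComplement'_of_card_mul_and_disjoint (by rw [mul_comm]; exact hc)
      (disjoint_iff.2 (by rw [inf_comm]; exact hd))
  obtain ⟨⟨⟨b, hb'⟩, ⟨a', ha'⟩⟩, hg⟩ := hcomp.2 g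
  have hg' : b * a' = g := hg
  have h1 : a' * a * a'⁻¹ ∈ B := by
    have h2 : b⁻¹ * (g * a * g⁻¹) * b ∈ B := B.mul_mem (B.mul_mem (B.inv_mem hb') hb) hb'
    have h3 : b⁻¹ * (g * a * g⁻¹) * b = a' * a * a'⁻¹ := by
      rw [← hg']; group
    rwa [h3] at h2
  have h4 : a' * a * a'⁻¹ ∈ A ⊓ B := ⟨A.mul_mem (A.mul_mem ha' ha) (A.inv_mem ha'), h1⟩
  rw [hd, mem_bot] at h4
  have h5 : a = a'⁻¹ * (a' * a * a'⁻¹) * a' := by group
  rw [h5, h4]; group

theorem norm_le_cent {G : Type u} [Group G] [Finite G] {p : ℕ} [hp : Fact p.Prime]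
    (P : Sylow p G) (hP : Nat.card P = p ^ 2)
    (hmin : ∀ r : ℕ, r.Prime → r ∣ Nat.card G → p ≤ r)
    (x : Fin 3 → G) (hx1 : ∀ i, x i ≠ 1) (hxP : ∀ i, x i ∈ P)
    (hf : ∀ i j, i ≠ j → ∀ g : G, g * x i * g⁻¹ ≠ x j) :
    normalizer (P : Set G) ≤ centralizer (P : Set G) := by
  have hcomm : IsMulCommutative P := IsPGroup.isMulCommutative_of_card_eq_prime_sq hP
  have hPC : (P : Subgroup G) ≤ centralizer (P : Set G) := (P : Subgroup G).le_centralizer
  set φ := (P : Subgroup G).normalizerMonoidHom with hφ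
  have hker : φ.ker = (centralizer (P : Set G)).subgroupOf (normalizer (P : Set G)) :=
    normalizerMonoidHom_ker _
  have hcard : Nat.card φ.range ∣ (P : Subgroup G).index := by
    rw [← Subgroup.index_ker, hker, ← relIndex]
    exact (relIndex_dvd_of_le_left _ hPC).trans (relIndex_dvd_index_of_le P.le_normalizer)
  by_cases h1 : Nat.card φ.range = 1
  · rw [← Subgroup.index_ker, hker, ← relIndex] at h1
    exact relIndex_eq_one.1 h1
  exfalso
  obtain ⟨r, hr, hrd⟩ := Nat.exists_prime_and_dvd h1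
  have : Fact r.Prime := ⟨hr⟩
  have hrG : r ∣ Nat.card G := hrd.trans (hcard.trans (Subgroup.index_dvd_card _))
  have hrp : r ≠ p := by
    rintro rfl
    exact P.not_dvd_index (hrd.trans hcard)
  have hpr : p < r := lt_of_le_of_ne (hmin r hr hrG) (Ne.symm hrp)
  obtain ⟨ψ₀, hψ₀⟩ := exists_prime_orderOf_dvd_card' (G := φ.range) r hrd
  obtain ⟨nn, hn⟩ := ψ₀.2
  obtain ⟨ψ, hψ⟩ : ∃ ψ : MulAut P, ψ = ψ₀.1 := ⟨_, rfl⟩
  have hψ' : orderOf ψ = r := by
    rw [hψ, ← hψ₀]; exact Subgroup.orderOf_coe ψ₀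
  rw [← hψ] at hn
  have hψn : ∀ y : P, ((ψ y : P) : G) = nn * y * (nn : G)⁻¹ := by
    intro y
    rw [← hn]
    rfl
  have hZ : IsPGroup r (zpowers ψ) := IsPGroup.of_card (n := 1) (by
    rw [Nat.card_zpowers, hψ', pow_one])
  have hmod := hZ.card_modEq_card_fixedPoints P
  set F : Subgroup P := MonoidHom.eqLocus ψ.toMonoidHom (MonoidHom.id P) with hF
  have hfix : MulAction.fixedPoints (zpowers ψ) P = (F : Set P) := by
    ext y
    constructor
    · intro h
      exact h ⟨ψ, mem_zpowers ψ⟩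
    · intro h m
      have h2 : ψ ∈ MulAction.stabilizer (MulAut P) y := h
      have h3 : zpowers ψ ≤ MulAction.stabilizer (MulAut P) y := by
        rw [zpowers_le]; exact h2
      exact h3 m.2
  rw [hfix] at hmod
  have hFc : Nat.card F ∣ p ^ 2 := by
    rw [← hP]; exact F.card_subgroup_dvd_card
  obtain ⟨k, hk, hFk⟩ := (Nat.dvd_prime_pow hp.out).1 hFc
  have hmod' : p ^ 2 ≡ p ^ k [MOD r] := by
    rw [← hP, ← hFk]; exact hmod
  have hp2 := hp.out.two_le
  have hd1 : ¬ r ∣ p - 1 := fun h => by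
    have := Nat.le_of_dvd (by omega) h
    omega
  have hd2 : ¬ r ∣ p := fun h => hrp ((Nat.prime_dvd_prime_iff_eq hr hp.out).1 h)
  interval_cases k
  · -- no fixed points
    have h3 : r ∣ p ^ 2 - 1 := by
      have := (Nat.modEq_iff_dvd' (by nlinarith)).1 hmod'.symm
      simpa using this
    have h4 : p ^ 2 - 1 = (p - 1) * (p + 1) := by
      obtain ⟨q, rfl⟩ : ∃ q, p = q + 1 := ⟨p - 1, by omega⟩
      have : (q + 1) ^ 2 = q * (q + 1 + 1) + 1 := by ring
      rw [this]; simp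
    rw [h4] at h3
    have h5 : r ∣ p + 1 := (hr.dvd_mul.1 h3).resolve_left hd1
    have h6 : r = p + 1 := by
      have := Nat.le_of_dvd (by omega) h5
      omega
    have h7 : p = 2 := by
      rcases hp.out.eq_two_or_odd' with h | h
      · exact h
      · exfalso
        have h8 : Even r := by rw [h6]; exact h.add_one
        have h9 := (hr.even_iff).1 h8
        omega
    subst h7
    -- four elements
    let f : Option (Fin 3) → (P : Subgroup G) := fun o => o.elim 1 (fun i => ⟨x i, hxP i⟩)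
    have hfi : Function.Injective f := by
      intro a b hab
      cases a with
      | none =>
        cases b with
        | none => rfl
        | some j => exact absurd (congrArg Subtype.val hab).symm (hx1 j)
      | some i =>
        cases b with
        | none => exact absurd (congrArg Subtype.val hab) (hx1 i)
        | some j =>
          by_contra hne
          have hij : i ≠ j := fun h => hne (by rw [h])
          have h8 : x i = x j := congrArg Subtype.val hab
          apply hf i j hij 1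
          simpa using h8
    have hbij := (Nat.bijective_iff_injective_and_card f).2 ⟨hfi, by rw [hP]; simp⟩
    obtain ⟨o, ho⟩ := hbij.2 (ψ ⟨x 0, hxP 0⟩)
    have h10 : (ψ ⟨x 0, hxP 0⟩ : (P : Subgroup G)) = ⟨x 0, hxP 0⟩ := by
      rw [← ho]
      cases o with
      | none =>
        exfalso
        have h11 : ψ ⟨x 0, hxP 0⟩ = 1 := ho.symm
        have h12 : (⟨x 0, hxP 0⟩ : (P : Subgroup G)) = 1 := by
          apply ψ.injective; rw [h11, map_one]
        exact hx1 0 (congrArg Subtype.val h12)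
      | some j =>
        by_cases hj : j = 0
        · subst hj; rfl
        · exfalso
          have h11 := hψn ⟨x 0, hxP 0⟩
          rw [← ho] at h11
          exact hf 0 j (Ne.symm hj) nn h11.symm
    have h13 : (⟨x 0, hxP 0⟩ : (P : Subgroup G)) ∈ F := h10
    have h14 : F = ⊥ := Subgroup.card_eq_one.1 (by simpa using hFk)
    rw [h14, mem_bot] at h13
    exact hx1 0 (congrArg Subtype.val h13)
  · have h3 : r ∣ p ^ 2 - p ^ 1 := (Nat.modEq_iff_dvd' (by nlinarith)).1 hmod'.symm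
    have h4 : p ^ 2 - p ^ 1 = p * (p - 1) := by
      rw [pow_one, sq, Nat.mul_sub, mul_one]
    rw [h4] at h3
    exact (hr.dvd_mul.1 h3).elim hd2 hd1
  · have h3 : F = ⊤ := Subgroup.eq_top_of_card_eq _ (by rw [hFk, hP])
    have h4 : ψ = 1 := by
      ext y
      have h5 : y ∈ F := by rw [h3]; trivial
      exact congrArg Subtype.val h5
    rw [h4, orderOf_one] at hψ'
    exact hr.one_lt.ne hψ'

theorem step {G : Type u} [Group G] [Finite G] {s p t : ℕ} [hp : Fact p.Prime]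
    (hs : s = p * t) (ht : ¬ p ∣ t)
    (hmin : ∀ r, r.Prime → r ∣ s → p ≤ r)
    (hG : Nat.card G = s ^ 2) (U : Fin 3 → Subgroup G) (hU : ∀ i, Nat.card (U i) = s)
    (hd : ∀ i j, i ≠ j → U i ⊓ U j = ⊥) :
    ∃ K : Subgroup G, K.Normal ∧ Nat.card K = t ^ 2 ∧ K.index = p ^ 2 ∧
      ∀ i, Nat.card (U i ⊓ K : Subgroup G) = t := by
  have ht0 : t ≠ 0 := by rintro rfl; exact ht (dvd_zero _)
  have hp0 := hp.out.pos
  obtain P : Sylow p G := default
  have hP : Nat.card P = p ^ 2 := by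
    rw [Sylow.card_eq_multiplicity, hG, hs, Nat.factorization_pow,
      Nat.factorization_mul hp.out.ne_zero ht0]
    congr 1
    simp [hp.out.factorization_self, Nat.factorization_eq_zero_of_not_dvd ht]
  have hy : ∀ i, ∃ y : U i, orderOf y = p := fun i =>
    exists_prime_orderOf_dvd_card' p (by rw [hU i, hs]; exact dvd_mul_right _ _)
  choose y hy using hy
  have hg : ∀ i, ∃ g : G, g * (y i : G) * g⁻¹ ∈ P := by
    intro i
    have h1 : IsPGroup p (zpowers (y i : G)) := IsPGroup.of_card (n := 1) (by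
      rw [Nat.card_zpowers, Subgroup.orderOf_coe, hy i, pow_one])
    obtain ⟨Q, hQ⟩ := h1.exists_le_sylow
    obtain ⟨g, hg⟩ := MulAction.exists_smul_eq G Q P
    refine ⟨g, ?_⟩
    have h2 : (y i : G) ∈ (Q : Subgroup G) := hQ (mem_zpowers _)
    have h3 := Subgroup.smul_mem_pointwise_smul (y i : G) (MulAut.conj g) (Q : Subgroup G) h2
    rw [← hg]
    exact h3
  choose g hgP using hg
  have hmin' : ∀ r : ℕ, r.Prime → r ∣ Nat.card G → p ≤ r := fun r hr h =>
    hmin r hr (hr.dvd_of_dvd_pow (by rwa [hG] at h))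
  have hy1 : ∀ i, (y i : G) ≠ 1 := by
    intro i h
    have h1 : orderOf (y i : G) = p := by rw [Subgroup.orderOf_coe, hy i]
    rw [h, orderOf_one] at h1
    exact hp.out.one_lt.ne h1
  have hN : normalizer (P : Set G) ≤ centralizer (P : Set G) := by
    refine norm_le_cent P hP hmin' (fun i => g i * (y i : G) * (g i)⁻¹) ?_ hgP ?_
    · intro i h
      apply hy1 i
      have h1 : (y i : G) = (g i)⁻¹ * (g i * (y i : G) * (g i)⁻¹) * g i := by group
      rw [h1, h]; group
    · intro i j hij h hh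
      apply hy1 i
      refine nonfusion (A := U i) (B := U j) (g := (g j)⁻¹ * h * g i)
        (by rw [hU i, hU j, hG, sq]) (hd i j hij) (y i).2 ?_
      have h1 : (g j)⁻¹ * h * g i * (y i : G) * ((g j)⁻¹ * h * g i)⁻¹ =
          (g j)⁻¹ * (h * (g i * (y i : G) * (g i)⁻¹) * h⁻¹) * g j := by group
      rw [h1, hh]
      have h2 : (g j)⁻¹ * (g j * (y j : G) * (g j)⁻¹) * g j = y j := by group
      rw [h2]
      exact (y j).2
  have hcomp := MonoidHom.ker_transferSylow_isComplement' P hN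
  set K := (MonoidHom.transferSylow P hN).ker with hK
  have hKn : K.Normal := inferInstance
  have hidx : K.index = p ^ 2 := by rw [hcomp.symm.index_eq_card, hP]
  have hKc : Nat.card K = t ^ 2 := by
    have h1 := K.card_mul_index
    rw [hidx, hG, hs, mul_pow, mul_comm (p ^ 2)] at h1
    exact Nat.eq_of_mul_eq_mul_right (by positivity) h1
  refine ⟨K, hKn, hKc, hidx, fun i => ?_⟩
  have h1 : Nat.card (K.subgroupOf (U i)) = Nat.card (U i ⊓ K : Subgroup G) := by
    rw [← Subgroup.card_map_of_injective (K := K.subgroupOf (U i)) (U i).subtype_injective,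
      Subgroup.subgroupOf_map_subtype, inf_comm]
  have h2 : Nat.card (U i ⊓ K : Subgroup G) * (K.subgroupOf (U i)).index = p * t := by
    rw [← h1, Subgroup.card_mul_index, hU i, hs]
  have h3 : (K.subgroupOf (U i)).index ∣ p ^ 2 := by
    rw [← hidx]; exact Subgroup.relIndex_dvd_index_of_normal K (U i)
  have h4 : Nat.card (U i ⊓ K : Subgroup G) ∣ t ^ 2 := by
    rw [← hKc]; exact Subgroup.card_dvd_of_le inf_le_right
  obtain ⟨k, hk, hk'⟩ := (Nat.dvd_prime_pow hp.out).1 h3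
  rw [hk'] at h2
  interval_cases k
  · exfalso
    rw [pow_zero, mul_one] at h2
    rw [h2] at h4
    exact ht (hp.out.dvd_of_dvd_pow ((dvd_mul_right p t).trans h4))
  · rw [pow_one, mul_comm] at h2
    exact Nat.eq_of_mul_eq_mul_left hp0 h2
  · exfalso
    apply ht
    refine ⟨Nat.card (U i ⊓ K : Subgroup G), ?_⟩
    apply Nat.eq_of_mul_eq_mul_left hp0
    rw [← h2]; ring

theorem hall_mem {G : Type u} [Group G] [Finite G] (K : Subgroup G) [K.Normal] (a : ℕ)
    (hc : Nat.Coprime K.index a) (y : G) (hy : y ^ a = 1) : y ∈ K := by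
  have h1 : (QuotientGroup.mk y : G ⧸ K) ^ a = 1 := by
    rw [← QuotientGroup.mk_pow, hy]; rfl
  have h2 : orderOf (QuotientGroup.mk y : G ⧸ K) ∣ a := orderOf_dvd_of_pow_eq_one h1
  have h3 : orderOf (QuotientGroup.mk y : G ⧸ K) ∣ K.index := orderOf_dvd_natCard _
  have h4 : orderOf (QuotientGroup.mk y : G ⧸ K) = 1 :=
    Nat.dvd_one.1 (hc ▸ Nat.dvd_gcd h3 h2)
  exact (QuotientGroup.eq_one_iff y).1 (orderOf_eq_one_iff.1 h4)

theorem main (n : ℕ) : ∀ (s : ℕ), 0 < s → (∀ p, p.Prime → p ≤ n → ¬ p ^ 2 ∣ s) →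
    ∀ (G : Type u) [Group G] [Finite G], Nat.card G = s ^ 2 →
    ∀ U : Fin 3 → Subgroup G, (∀ i, Nat.card (U i) = s) →
      (∀ i j, i ≠ j → U i ⊓ U j = ⊥) →
      ∃ (K : Subgroup G) (_ : K.Normal) (m t : ℕ), s = m * t ∧
        (∀ p, p.Prime → p ∣ m → p ≤ n) ∧ (∀ p, p.Prime → p ∣ t → n < p) ∧
        Nat.card K = t ^ 2 ∧ (∀ i, Nat.card (U i ⊓ K : Subgroup G) = t) ∧
        Group.IsSolvable (G ⧸ K) := by
  intro s
  induction s using Nat.strong_induction_on with
  | _ s ih =>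
  intro hs0 hsn G _ _ hG U hU hd
  by_cases hex : ∃ p, p.Prime ∧ p ∣ s ∧ p ≤ n
  swap
  · push Not at hex
    refine ⟨⊤, inferInstance, 1, s, by simp, ?_, fun p hp h => hex p hp h, ?_, ?_, ?_⟩
    · intro p hp h
      exact absurd (Nat.dvd_one.1 h) hp.one_lt.ne'
    · rw [Subgroup.card_top, hG]
    · intro i; rw [inf_top_eq, hU i]
    · have : Subsingleton (G ⧸ (⊤ : Subgroup G)) := QuotientGroup.subsingleton_quotient_top
      infer_instance
  obtain ⟨p₀, hp₀, hp₀s, hp₀n⟩ := hex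
  have hs1 : s ≠ 1 := by
    rintro rfl
    exact hp₀.one_lt.ne' (Nat.dvd_one.1 hp₀s)
  obtain ⟨p, hpdef⟩ : ∃ p, p = s.minFac := ⟨_, rfl⟩
  have hp : p.Prime := by rw [hpdef]; exact Nat.minFac_prime hs1
  have : Fact p.Prime := ⟨hp⟩
  have hps : p ∣ s := by rw [hpdef]; exact Nat.minFac_dvd s
  have hmin : ∀ r, r.Prime → r ∣ s → p ≤ r := fun r hr h => by
    rw [hpdef]; exact Nat.minFac_le_of_dvd hr.two_le h
  have hpn : p ≤ n := (hmin p₀ hp₀ hp₀s).trans hp₀n
  obtain ⟨t', ht'⟩ := hps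
  have hpt : ¬ p ∣ t' := by
    rintro ⟨c, hc⟩
    apply hsn p hp hpn
    exact ⟨c, by rw [ht', hc]; ring⟩
  have ht'0 : 0 < t' := by
    rcases Nat.eq_zero_or_pos t' with h | h
    · rw [h] at ht'; omega
    · exact h
  have hlt : t' < s := by
    rw [ht']
    have := hp.two_le
    nlinarith
  obtain ⟨K₁, hK₁n, hK₁c, hK₁i, hK₁U⟩ := step ht' hpt hmin hG U hU hd
  have hcU : ∀ (H L : Subgroup G), Nat.card (H.subgroupOf L) = Nat.card (H ⊓ L : Subgroup G) := by
    intro H L
    rw [← Subgroup.card_map_of_injective (K := H.subgroupOf L) L.subtype_injective,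
      Subgroup.subgroupOf_map_subtype]
  obtain ⟨K₂, hK₂n, m', t, hmt, hm, ht, hK₂c, hK₂U, hsol⟩ :=
    ih t' hlt ht'0 (fun r hr hrn h => hsn r hr hrn (h.trans ⟨p, by rw [ht', mul_comm]⟩)) K₁ hK₁c
      (fun i => (U i).subgroupOf K₁) (fun i => by rw [hcU, hK₁U i])
      (fun i j hij => by
        have h1 : (U i).subgroupOf K₁ ⊓ (U j).subgroupOf K₁ = (U i ⊓ U j).subgroupOf K₁ := rfl
        rw [h1, hd i j hij, Subgroup.bot_subgroupOf])
  have ht0 : 0 < t := by
    rcases Nat.eq_zero_or_pos t with h | h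
    · rw [h] at hmt; omega
    · exact h
  have hmtc : Nat.Coprime m' t := by
    apply Nat.Coprime.symm
    rw [Nat.coprime_iff_gcd_eq_one]
    by_contra h
    obtain ⟨r, hr, hrd⟩ := Nat.exists_prime_and_dvd h
    have h1 := ht r hr (hrd.trans (Nat.gcd_dvd_left _ _))
    have h2 := hm r hr (hrd.trans (Nat.gcd_dvd_right _ _))
    omega
  have hK₂i : K₂.index = m' ^ 2 := by
    have h1 := K₂.card_mul_index
    rw [hK₂c, hK₁c, hmt, mul_pow, mul_comm (m' ^ 2)] at h1
    exact Nat.eq_of_mul_eq_mul_left (by positivity) h1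
  set K := K₂.map K₁.subtype with hKdef
  have hKK₁ : K ≤ K₁ := by
    rw [hKdef]; exact Subgroup.map_subtype_le K₂
  have hKn : K.Normal := by
    constructor
    intro x hx g
    obtain ⟨z, hz, rfl⟩ := hx
    have h1 : g * (z : G) * g⁻¹ ∈ K₁ := hK₁n.conj_mem _ z.2 g
    have h2 : (z : G) ^ (t ^ 2) = 1 := by
      have h3 : (⟨z, hz⟩ : K₂) ^ (t ^ 2) = 1 := by rw [← hK₂c]; exact pow_card_eq_one'
      have h4 := congrArg (fun w : K₂ => ((w : K₁) : G)) h3
      simpa using h4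
    have h5 : (⟨g * (z : G) * g⁻¹, h1⟩ : K₁) ^ (t ^ 2) = 1 := by
      apply Subtype.ext
      simp only [SubmonoidClass.mk_pow, conj_pow, h2]
      simp
    have h6 : (⟨g * (z : G) * g⁻¹, h1⟩ : K₁) ∈ K₂ :=
      hall_mem K₂ (t ^ 2) (by rw [hK₂i]; exact Nat.Coprime.pow _ _ hmtc) _ h5
    exact ⟨_, h6, rfl⟩
  refine ⟨K, hKn, p * m', t, by rw [ht', hmt, mul_assoc], ?_, ht, ?_, ?_, ?_⟩
  · intro r hr h
    rcases hr.dvd_mul.1 h with h | h
    · rw [(Nat.prime_dvd_prime_iff_eq hr hp).1 h]; exact hpn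
    · exact hm r hr h
  · rw [hKdef, Subgroup.card_map_of_injective K₁.subtype_injective, hK₂c]
  · intro i
    rw [← hK₂U i]
    have h1 : U i ⊓ K = ((U i).subgroupOf K₁ ⊓ K₂).map K₁.subtype := by
      ext x
      constructor
      · rintro ⟨hx1, ⟨z, hz, rfl⟩⟩
        exact ⟨z, ⟨hx1, hz⟩, rfl⟩
      · rintro ⟨z, ⟨hz1, hz2⟩, rfl⟩
        exact ⟨hz1, ⟨z, hz2, rfl⟩⟩
    rw [h1, Subgroup.card_map_of_injective K₁.subtype_injective]
  · have hle : K₂ ≤ K.comap K₁.subtype := Subgroup.le_comap_map _ _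
    let f : K₁ ⧸ K₂ →* G ⧸ K := QuotientGroup.map K₂ K K₁.subtype hle
    let g : G ⧸ K →* G ⧸ K₁ := QuotientGroup.map K K₁ (MonoidHom.id G) (by
      rw [Subgroup.comap_id]; exact hKK₁)
    have h2 : Group.IsSolvable (G ⧸ K₁) := by
      have h3 : Nat.card (G ⧸ K₁) = p ^ 2 := hK₁i
      have h4 := IsPGroup.isMulCommutative_of_card_eq_prime_sq h3
      exact Group.isSolvable_of_comm h4.is_comm.comm
    refine Group.isSolvable_of_ker_le_range f g ?_
    intro x hx
    obtain ⟨x, rfl⟩ := QuotientGroup.mk_surjective x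
    have h3 : (QuotientGroup.mk x : G ⧸ K₁) = 1 := hx
    have h4 : x ∈ K₁ := (QuotientGroup.eq_one_iff x).1 h3
    exact ⟨QuotientGroup.mk ⟨x, h4⟩, rfl⟩

end Pool.Agent.Helper354.Pcp
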