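import Mathlib
import Pool.Agent.Helper354.Pcp.Tower

set_option autoImplicit false

namespace Pool.Agent.Helper354.Pcp

open Subgroup
open scoped commutatorElement

universe u

/-- `w^k x w^(-k) x^(-1) = (w x w^(-1) x^(-1))^k` if `w` commutes with the commutator -/
theorem pow_comm {G : Type u} [Group G] (w x : G) (hd : Commute w ⁅w, x⁆) (k : ℕ) :
    w ^ k * x = ⁅w, x⁆ ^ k * x * w ^ k := by
  induction k with
  | zero => simp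
  | succ k ih =>
    have h1 : w * x = ⁅w, x⁆ * x * w := by
      rw [commutatorElement_def]; group
    have h2 : w * ⁅w, x⁆ ^ k = ⁅w, x⁆ ^ k * w := (hd.pow_right k).eq
    calc w ^ (k + 1) * x = w * (w ^ k * x) := by rw [pow_succ']; group
      _ = w * (⁅w, x⁆ ^ k * x * w ^ k) := by rw [ih]
      _ = (w * ⁅w, x⁆ ^ k) * x * w ^ k := by group
      _ = ⁅w, x⁆ ^ k * (w * x) * w ^ k := by rw [h2]; group
      _ = ⁅w, x⁆ ^ (k + 1) * x * w ^ (k + 1) := by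
        rw [h1, pow_succ, pow_succ']; simp only [mul_assoc]

theorem pow_trivial {G : Type u} [Group G] (w x : G) (hd : Commute w ⁅w, x⁆) (k : ℕ)
    (hk : Commute (w ^ k) x) : ⁅w, x⁆ ^ k = 1 := by
  have h1 := pow_comm w x hd k
  have h2 : w ^ k * x = x * w ^ k := hk.eq
  rw [h2, mul_assoc] at h1
  have h3 : (1 : G) * (x * w ^ k) = ⁅w, x⁆ ^ k * (x * w ^ k) := by rw [one_mul]; exact h1
  exact (mul_right_cancel h3).symm

/-- an element of a `q`-group whose `a`-th power is trivial, `a` prime to `q` -/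
theorem eq_one_of_pow {G : Type u} [Group G] (M : Subgroup G) {q : ℕ} [Fact q.Prime]
    (hM : IsPGroup q M) (a : ℕ) (ha : ¬ q ∣ a) (d : G) (hd : d ∈ M) (h : d ^ a = 1) : d = 1 := by
  obtain ⟨k, hk⟩ := hM ⟨d, hd⟩
  have h1 : d ^ q ^ k = 1 := by
    have := congrArg Subtype.val hk
    simpa using this
  have h2 : orderOf d ∣ a := orderOf_dvd_of_pow_eq_one h
  have h3 : orderOf d ∣ q ^ k := orderOf_dvd_of_pow_eq_one h1
  have h4 : Nat.Coprime a (q ^ k) := by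
    apply Nat.Coprime.pow_right
    exact ((Nat.Prime.coprime_iff_not_dvd Fact.out).2 ha).symm
  exact orderOf_eq_one_iff.1 (Nat.dvd_one.1 (h4 ▸ Nat.dvd_gcd h2 h3))

/-- the coprime action trick -/
theorem trick {G : Type u} [Group G] [Finite G] (M : Subgroup G) [M.Normal] {q : ℕ}
    [Fact q.Prime] (hM : IsPGroup q M) (hi : ¬ q ∣ M.index) (w x : G)
    (hwx : ⁅w, x⁆ ∈ M) (hd : Commute w ⁅w, x⁆) (hx : ∀ m ∈ M, Commute m x) : Commute w x := by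
  have h1 : w ^ M.index ∈ M := M.pow_index_mem w
  have h2 := pow_trivial w x hd M.index (hx _ h1)
  have h3 := eq_one_of_pow M hM _ hi _ hwx h2
  exact commutatorElement_eq_one_iff_commute.1 h3

section ito

variable {R : Type u} [Group R] (A B : Subgroup R)

theorem ito (hAB : ∀ g : R, ∃ a ∈ A, ∃ b ∈ B, g = a * b)
    (hA : ∀ x ∈ A, ∀ y ∈ A, x * y = y * x) (hB : ∀ x ∈ B, ∀ y ∈ B, x * y = y * x) :
    ∀ x ∈ commutator R, ∀ y ∈ commutator R, x * y = y * x := by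
  have hBA : ∀ g : R, ∃ b ∈ B, ∃ a ∈ A, g = b * a := by
    intro g
    obtain ⟨a, ha, b, hb, h⟩ := hAB g⁻¹
    refine ⟨b⁻¹, B.inv_mem hb, a⁻¹, A.inv_mem ha, ?_⟩
    rw [← mul_inv_rev, ← h, inv_inv]
  set S : Set R := {z | ∃ a ∈ A, ∃ b ∈ B, z = ⁅a, b⁆} with hS
  -- conjugation by elements of A
  have cA : ∀ a₁ ∈ A, ∀ b ∈ B, ∃ b₂ ∈ B, ∀ a ∈ A, a₁ * ⁅a, b⁆ * a₁⁻¹ = ⁅a, b₂⁆ := by
    intro a₁ ha₁ b hb
    obtain ⟨b₂, hb₂, a₂, ha₂, h⟩ := hBA (a₁ * b * a₁⁻¹)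
    refine ⟨b₂, hb₂, fun a ha => ?_⟩
    have e1 : a₁ * a * a₁⁻¹ = a := by rw [hA a₁ ha₁ a ha]; group
    calc a₁ * ⁅a, b⁆ * a₁⁻¹ = ⁅a₁ * a * a₁⁻¹, a₁ * b * a₁⁻¹⁆ := by
          simp only [commutatorElement_def]; group
      _ = ⁅a, b₂ * a₂⁆ := by rw [e1, h]
      _ = a * b₂ * (a₂ * a⁻¹) * a₂⁻¹ * b₂⁻¹ := by simp only [commutatorElement_def]; group
      _ = a * b₂ * (a⁻¹ * a₂) * a₂⁻¹ * b₂⁻¹ := by rw [hA a₂ ha₂ a⁻¹ (A.inv_mem ha)]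
      _ = ⁅a, b₂⁆ := by simp only [commutatorElement_def]; group
  have cB : ∀ b₁ ∈ B, ∀ a ∈ A, ∃ a₃ ∈ A, ∀ b ∈ B, b₁ * ⁅a, b⁆ * b₁⁻¹ = ⁅a₃, b⁆ := by
    intro b₁ hb₁ a ha
    obtain ⟨a₃, ha₃, b₃, hb₃, h⟩ := hAB (b₁ * a * b₁⁻¹)
    refine ⟨a₃, ha₃, fun b hb => ?_⟩
    have e1 : b₁ * b * b₁⁻¹ = b := by rw [hB b₁ hb₁ b hb]; group
    calc b₁ * ⁅a, b⁆ * b₁⁻¹ = ⁅b₁ * a * b₁⁻¹, b₁ * b * b₁⁻¹⁆ := by
          simp only [commutatorElement_def]; group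
      _ = ⁅a₃ * b₃, b⁆ := by rw [e1, h]
      _ = a₃ * (b₃ * b) * b₃⁻¹ * a₃⁻¹ * b⁻¹ := by simp only [commutatorElement_def]; group
      _ = a₃ * (b * b₃) * b₃⁻¹ * a₃⁻¹ * b⁻¹ := by rw [hB b₃ hb₃ b hb]
      _ = ⁅a₃, b⁆ := by simp only [commutatorElement_def]; group
  -- the generators commute
  have hcomm : ∀ a ∈ A, ∀ b ∈ B, ∀ a₁ ∈ A, ∀ b₁ ∈ B, Commute ⁅a₁⁻¹, b₁⁻¹⁆ ⁅a, b⁆ := by
    intro a ha b hb a₁ ha₁ b₁ hb₁
    obtain ⟨b₂, hb₂, h2⟩ := cA a₁ ha₁ b hb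
    obtain ⟨a₃, ha₃, h3⟩ := cB b₁ hb₁ a ha
    have e1 : b₁ * (a₁ * ⁅a, b⁆ * a₁⁻¹) * b₁⁻¹ = ⁅a₃, b₂⁆ := by rw [h2 a ha, h3 b₂ hb₂]
    have e2 : a₁ * (b₁ * ⁅a, b⁆ * b₁⁻¹) * a₁⁻¹ = ⁅a₃, b₂⁆ := by rw [h3 b hb, h2 a₃ ha₃]
    have e3 : b₁ * (a₁ * ⁅a, b⁆ * a₁⁻¹) * b₁⁻¹ = a₁ * (b₁ * ⁅a, b⁆ * b₁⁻¹) * a₁⁻¹ := by
      rw [e1, e2]
    have e4 : ⁅a₁⁻¹, b₁⁻¹⁆ * ⁅a, b⁆ * ⁅a₁⁻¹, b₁⁻¹⁆⁻¹ = ⁅a, b⁆ := by
      have e5 : ⁅a₁⁻¹, b₁⁻¹⁆ * ⁅a, b⁆ * ⁅a₁⁻¹, b₁⁻¹⁆⁻¹ =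
          a₁⁻¹ * b₁⁻¹ * (a₁ * (b₁ * ⁅a, b⁆ * b₁⁻¹) * a₁⁻¹) * b₁ * a₁ := by
        simp only [commutatorElement_def]; group
      rw [e5, ← e3]; group
    show ⁅a₁⁻¹, b₁⁻¹⁆ * ⁅a, b⁆ = ⁅a, b⁆ * ⁅a₁⁻¹, b₁⁻¹⁆
    calc ⁅a₁⁻¹, b₁⁻¹⁆ * ⁅a, b⁆ = (⁅a₁⁻¹, b₁⁻¹⁆ * ⁅a, b⁆ * ⁅a₁⁻¹, b₁⁻¹⁆⁻¹) * ⁅a₁⁻¹, b₁⁻¹⁆ := by
          group
      _ = _ := by rw [e4]
  have hSc : ∀ z ∈ S, ∀ w ∈ S, z * w = w * z := by
    rintro z ⟨a₁, ha₁, b₁, hb₁, rfl⟩ w ⟨a, ha, b, hb, rfl⟩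
    have h := hcomm a ha b hb a₁⁻¹ (A.inv_mem ha₁) b₁⁻¹ (B.inv_mem hb₁)
    rw [inv_inv, inv_inv] at h
    exact h.eq
  -- the closure is normal
  set D := closure S with hD
  have hDc : ∀ x ∈ D, ∀ y ∈ D, x * y = y * x := by
    intro x hx y hy
    have h1 : D ≤ centralizer S := by
      rw [hD, closure_le]
      intro z hz
      rw [SetLike.mem_coe, mem_centralizer_iff]
      intro w hw
      exact hSc w hw z hz
    have h2 : D ≤ centralizer (D : Set R) := by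
      rw [← Subgroup.centralizer_closure] at h1
      exact h1
    exact ((mem_centralizer_iff.1 (h2 hx)) y hy).symm
  have hconj : ∀ g : R, ∀ z ∈ S, g * z * g⁻¹ ∈ S := by
    intro g z hz
    obtain ⟨a₁, ha₁, b₁, hb₁, rfl⟩ := hAB g
    obtain ⟨a, ha, b, hb, rfl⟩ := hz
    obtain ⟨a₃, ha₃, h3⟩ := cB b₁ hb₁ a ha
    obtain ⟨b₂, hb₂, h2⟩ := cA a₁ ha₁ b hb
    refine ⟨a₃, ha₃, b₂, hb₂, ?_⟩
    have : a₁ * b₁ * ⁅a, b⁆ * (a₁ * b₁)⁻¹ = a₁ * (b₁ * ⁅a, b⁆ * b₁⁻¹) * a₁⁻¹ := by group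
    rw [this, h3 b hb, h2 a₃ ha₃]
  have hDn : D.Normal := by
    constructor
    intro x hx g
    have h1 : D ≤ D.comap (MulAut.conj g).toMonoidHom := by
      rw [hD, closure_le]
      intro z hz
      exact subset_closure (hconj g z hz)
    exact h1 hx
  have hle : commutator R ≤ D := by
    rw [commutator_def, Subgroup.commutator_le]
    intro g _ h _
    rw [← QuotientGroup.eq_one_iff, commutatorElement_def]
    have key : ∀ a ∈ A, ∀ b ∈ B, (QuotientGroup.mk' D a) * (QuotientGroup.mk' D b) =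
        (QuotientGroup.mk' D b) * (QuotientGroup.mk' D a) := by
      intro a ha b hb
      have h1 : ⁅a, b⁆ ∈ D := subset_closure ⟨a, ha, b, hb, rfl⟩
      have h2 : QuotientGroup.mk' D ⁅a, b⁆ = 1 := (QuotientGroup.eq_one_iff _).2 h1
      rw [map_commutatorElement] at h2
      exact (commutatorElement_eq_one_iff_mul_comm.1 h2)
    have keyA : ∀ a ∈ A, ∀ b ∈ A, (QuotientGroup.mk' D a) * (QuotientGroup.mk' D b) =
        (QuotientGroup.mk' D b) * (QuotientGroup.mk' D a) := by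
      intro a ha b hb
      rw [← map_mul, hA a ha b hb, map_mul]
    have keyB : ∀ a ∈ B, ∀ b ∈ B, (QuotientGroup.mk' D a) * (QuotientGroup.mk' D b) =
        (QuotientGroup.mk' D b) * (QuotientGroup.mk' D a) := by
      intro a ha b hb
      rw [← map_mul, hB a ha b hb, map_mul]
    obtain ⟨a, ha, b, hb, rfl⟩ := hAB g
    obtain ⟨a', ha', b', hb', rfl⟩ := hAB h
    have c1 : Commute (QuotientGroup.mk' D (a * b)) (QuotientGroup.mk' D (a' * b')) := by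
      rw [map_mul, map_mul]
      have k1 : Commute (QuotientGroup.mk' D a) (QuotientGroup.mk' D a') := keyA a ha a' ha'
      have k2 : Commute (QuotientGroup.mk' D a) (QuotientGroup.mk' D b') := key a ha b' hb'
      have k3 : Commute (QuotientGroup.mk' D b) (QuotientGroup.mk' D a') := (key a' ha' b hb).symm
      have k4 : Commute (QuotientGroup.mk' D b) (QuotientGroup.mk' D b') := keyB b hb b' hb'
      exact (k1.mul_left k3).mul_right (k2.mul_left k4)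
    exact commutatorElement_eq_one_iff_commute.2 c1
  intro x hx y hy
  exact hDc x (hle hx) y (hle hy)

end ito

end Pool.Agent.Helper354.Pcp
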