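import Mathlib
import Pool.Agent.Helper354.Pcp.Ito

set_option autoImplicit false

namespace Pool.Agent.Helper354.Pcp

open Subgroup
open scoped commutatorElement

universe u

/-- the product formula for a factorised group -/
theorem card_prod {R : Type u} [Group R] [Finite R] (X Y : Subgroup R)
    (hXY : ∀ g : R, ∃ x ∈ X, ∃ y ∈ Y, g = x * y) :
    Nat.card X * Nat.card Y = Nat.card (X ⊓ Y : Subgroup R) * Nat.card R := by
  have h1 : (Y.subgroupOf X).index = Y.index := by
    let f : X ⧸ (Y.subgroupOf X) → R ⧸ Y := Quotient.map' (fun x => (x : R)) (by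
      intro a b hab
      rw [QuotientGroup.leftRel_apply] at hab ⊢
      exact hab)
    have hf : Function.Bijective f := by
      constructor
      · intro a b hab
        obtain ⟨a, rfl⟩ := QuotientGroup.mk_surjective a
        obtain ⟨b, rfl⟩ := QuotientGroup.mk_surjective b
        have h2 : (QuotientGroup.mk (a : R) : R ⧸ Y) = QuotientGroup.mk (b : R) := hab
        rw [QuotientGroup.eq] at h2 ⊢
        exact h2
      · intro g
        obtain ⟨g, rfl⟩ := QuotientGroup.mk_surjective g
        obtain ⟨x, hx, y, hy, rfl⟩ := hXY g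
        refine ⟨QuotientGroup.mk ⟨x, hx⟩, ?_⟩
        show (QuotientGroup.mk x : R ⧸ Y) = QuotientGroup.mk (x * y)
        rw [QuotientGroup.eq]
        simpa using hy
    exact Nat.card_congr (Equiv.ofBijective f hf)
  have h2 : Nat.card (Y.subgroupOf X) = Nat.card (X ⊓ Y : Subgroup R) := by
    rw [← Subgroup.card_map_of_injective (K := Y.subgroupOf X) X.subtype_injective,
      Subgroup.subgroupOf_map_subtype, inf_comm]
  have h3 := (Y.subgroupOf X).card_mul_index
  rw [h1, h2] at h3
  have h4 := Y.card_mul_index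
  rw [← h3, ← h4]; ring

/-- `G` has a normal Hall subgroup for the primes above `n`, for every `n` -/
def Tower (G : Type u) [Group G] : Prop :=
  ∀ n : ℕ, ∃ K : Subgroup G, K.Normal ∧ (∀ p, p.Prime → p ∣ Nat.card K → n < p) ∧
    (∀ p, p.Prime → p ∣ K.index → p ≤ n)

theorem Tower.map {G H : Type u} [Group G] [Group H] (hG : Tower G) (f : G →* H)
    (hf : Function.Surjective f) : Tower H := by
  intro n
  obtain ⟨K, hK, h1, h2⟩ := hG n
  exact ⟨K.map f, hK.map f hf, fun p hp h => h1 p hp (h.trans (Subgroup.card_map_dvd K f)),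
    fun p hp h => h2 p hp (h.trans (Subgroup.index_map_dvd K hf))⟩

section core
variable {R : Type u} [Group R] [Finite R]

/-- the action argument -/
theorem core (M : Subgroup R) (X : Fin 3 → Subgroup R)
    (hXX : ∀ i, ∀ x ∈ X i, ∀ y ∈ X i, x * y = y * x)
    (hfac : ∀ i j, i ≠ j → ∀ g : R, ∃ x ∈ X i, ∃ y ∈ X j, g = x * y)
    (hMn : M.Normal) {r : ℕ} [hr : Fact r.Prime] (hM2 : Nat.card M = r ^ 2)
    (_hMc : ∀ x ∈ M, ∀ y ∈ M, x * y = y * x)
    (hact : ∀ g h m : R, m ∈ M → g * (h * m * h⁻¹) * g⁻¹ = h * (g * m * g⁻¹) * h⁻¹)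
    (x : Fin 3 → R) (hxX : ∀ i, x i ∈ X i) (hxM : ∀ i, x i ∈ M)
    (hx1 : ∀ i, orderOf (x i) = r)
    (hind : ∀ i j, i ≠ j → zpowers (x i) ⊓ zpowers (x j) = ⊥)
    {i j k : Fin 3} (hij : i ≠ j) (hik : i ≠ k) (hjk : j ≠ k)
    (hi : ¬ ∀ g ∈ X i, ∀ m ∈ M, g * m = m * g)
    (hj : ¬ ∀ g ∈ X j, ∀ m ∈ M, g * m = m * g) : False := by
  -- M is generated by any two of the x's
  have hgen : ∀ i j, i ≠ j → ∀ m ∈ M, ∃ a ∈ zpowers (x i), ∃ b ∈ zpowers (x j), m = a * b := by
    intro i j hij m hm
    let P : Subgroup M := (zpowers (x i)).subgroupOf M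
    let Q : Subgroup M := (zpowers (x j)).subgroupOf M
    have hle : ∀ i, zpowers (x i) ≤ M := fun i => by
      rw [zpowers_le]; exact hxM i
    have hcP : ∀ i, Nat.card ((zpowers (x i)).subgroupOf M) = r := by
      intro i
      rw [Nat.card_congr (Subgroup.subgroupOfEquivOfLe (hle i)).toEquiv, Nat.card_zpowers, hx1 i]
    have hcomp : IsComplement' P Q := by
      apply isComplement'_of_card_mul_and_disjoint
      · rw [hcP i, hcP j, hM2, sq]
      · rw [disjoint_iff]
        have h1 : P ⊓ Q = (zpowers (x i) ⊓ zpowers (x j)).subgroupOf M := rfl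
        rw [h1, hind i j hij, Subgroup.bot_subgroupOf]
    obtain ⟨⟨⟨a, ha⟩, ⟨b, hb⟩⟩, hab⟩ := hcomp.2 ⟨m, hm⟩
    refine ⟨a, ha, b, hb, ?_⟩
    have h2 : a * b = (⟨m, hm⟩ : M) := hab
    exact (congrArg Subtype.val h2).symm
  -- an element commuting with two x's centralises M
  have hcent : ∀ i j, i ≠ j → ∀ g : R, g * x i = x i * g → g * x j = x j * g →
      ∀ m ∈ M, g * m = m * g := by
    intro i j hij g h1 h2 m hm
    obtain ⟨a, ha, b, hb, rfl⟩ := hgen i j hij m hm
    obtain ⟨u, rfl⟩ := mem_zpowers_iff.1 ha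
    obtain ⟨v, rfl⟩ := mem_zpowers_iff.1 hb
    have c1 : Commute g (x i) := h1
    have c2 : Commute g (x j) := h2
    exact ((c1.zpow_right u).mul_right (c2.zpow_right v)).eq
  -- if X i does not centralise M then `zpowers (x i)` is normal
  have hnorm : ∀ i, (¬ ∀ g ∈ X i, ∀ m ∈ M, g * m = m * g) → ∀ h : R,
      ∀ z ∈ zpowers (x i), h * z * h⁻¹ ∈ zpowers (x i) := by
    intro i hi h z hz
    push Not at hi
    obtain ⟨g, hg, m, hm, hgm⟩ := hi
    obtain ⟨j, hij⟩ : ∃ j : Fin 3, i ≠ j := (by decide : ∀ i : Fin 3, ∃ j : Fin 3, i ≠ j) i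
    have hgx : g * x i = x i * g := hXX i g hg _ (hxX i)
    have hgj : ¬ (g * x j = x j * g) := fun h => hgm (hcent i j hij g hgx h m hm)
    have hzM : z ∈ M := by
      have h1 : zpowers (x i) ≤ M := by rw [zpowers_le]; exact hxM i
      exact h1 hz
    have hzg : g * z * g⁻¹ = z := by
      obtain ⟨u, rfl⟩ := mem_zpowers_iff.1 hz
      have c1 : Commute g (x i) := hgx
      rw [(c1.zpow_right u).eq]; group
    have h2 : g * (h * z * h⁻¹) * g⁻¹ = h * z * h⁻¹ := by
      rw [hact g h z hzM, hzg]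
    have h3 : h * z * h⁻¹ ∈ M := hMn.conj_mem z hzM h
    obtain ⟨a, ha, b, hb, hab⟩ := hgen i j hij _ h3
    rw [hab] at h2 ⊢
    have hga : g * a * g⁻¹ = a := by
      obtain ⟨u, rfl⟩ := mem_zpowers_iff.1 ha
      have c1 : Commute g (x i) := hgx
      rw [(c1.zpow_right u).eq]; group
    have hgb : g * b * g⁻¹ = b := by
      have h4 : g * (a * b) * g⁻¹ = (g * a * g⁻¹) * (g * b * g⁻¹) := by group
      rw [h4, hga] at h2
      exact mul_left_cancel h2
    -- b must be trivial
    by_cases hb1 : b = 1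
    · rw [hb1, mul_one]; exact ha
    · exfalso
      apply hgj
      have h5 : x j ∈ zpowers b := by
        have h6 : zpowers b = zpowers (x j) := by
          apply Subgroup.eq_of_le_of_card_ge
          · rw [zpowers_le]; exact hb
          · rw [Nat.card_zpowers, Nat.card_zpowers, hx1 j]
            have h7 : orderOf b ∣ r := by
              rw [← hx1 j]; exact orderOf_dvd_of_mem_zpowers hb
            rcases (Nat.dvd_prime hr.out).1 h7 with h8 | h8
            · exact absurd (orderOf_eq_one_iff.1 h8) hb1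
            · rw [h8]
        rw [h6]; exact mem_zpowers _
      obtain ⟨u, hu⟩ := mem_zpowers_iff.1 h5
      have c1 : Commute g b := by
        show g * b = b * g
        calc g * b = (g * b * g⁻¹) * g := by group
          _ = b * g := by rw [hgb]
      rw [← hu]
      exact (c1.zpow_right u).eq
  have hNi := hnorm i hi
  have hNj := hnorm j hj
  -- X k centralises M
  have hk : ∀ c ∈ X k, ∀ m ∈ M, c * m = m * c := by
    intro c hc
    obtain ⟨a, ha, b, hb, hab⟩ := hgen i j hij (x k) (hxM k)
    have hck : c * x k * c⁻¹ = x k := by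
      rw [hXX k c hc _ (hxX k)]; group
    have h1 : (c * a * c⁻¹) * (c * b * c⁻¹) = a * b := by
      have : (c * a * c⁻¹) * (c * b * c⁻¹) = c * (a * b) * c⁻¹ := by group
      rw [this, ← hab, hck]
    have h2 : a⁻¹ * (c * a * c⁻¹) = b * (c * b * c⁻¹)⁻¹ := by
      have h3 : a⁻¹ * ((c * a * c⁻¹) * (c * b * c⁻¹)) * (c * b * c⁻¹)⁻¹ =
          a⁻¹ * (a * b) * (c * b * c⁻¹)⁻¹ := by rw [h1]
      calc a⁻¹ * (c * a * c⁻¹) = a⁻¹ * ((c * a * c⁻¹) * (c * b * c⁻¹)) * (c * b * c⁻¹)⁻¹ := by group
        _ = a⁻¹ * (a * b) * (c * b * c⁻¹)⁻¹ := h3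
        _ = b * (c * b * c⁻¹)⁻¹ := by group
    have h4 : a⁻¹ * (c * a * c⁻¹) ∈ zpowers (x i) ⊓ zpowers (x j) := by
      refine ⟨(zpowers (x i)).mul_mem ((zpowers (x i)).inv_mem ha) (hNi c a ha), ?_⟩
      rw [h2]
      exact (zpowers (x j)).mul_mem hb ((zpowers (x j)).inv_mem (hNj c b hb))
    rw [hind i j hij, mem_bot] at h4
    have h5 : c * a * c⁻¹ = a := by
      have := eq_of_inv_mul_eq_one h4
      exact this.symm
    have h6 : c * b * c⁻¹ = b := by
      rw [h4] at h2
      have := mul_inv_eq_one.1 h2.symm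
      exact this.symm
    have ha1 : a ≠ 1 := by
      intro h
      rw [h, one_mul] at hab
      have h7 : x k ∈ zpowers (x j) ⊓ zpowers (x k) := ⟨by rw [hab]; exact hb, mem_zpowers _⟩
      rw [hind j k hjk, mem_bot] at h7
      have h8 := hx1 k
      rw [h7, orderOf_one] at h8
      exact hr.out.one_lt.ne h8
    have hb1 : b ≠ 1 := by
      intro h
      rw [h, mul_one] at hab
      have h7 : x k ∈ zpowers (x i) ⊓ zpowers (x k) := ⟨by rw [hab]; exact ha, mem_zpowers _⟩
      rw [hind i k hik, mem_bot] at h7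
      have h8 := hx1 k
      rw [h7, orderOf_one] at h8
      exact hr.out.one_lt.ne h8
    have hgen' : ∀ (l : Fin 3) (b : R), b ∈ zpowers (x l) → b ≠ 1 → c * b * c⁻¹ = b →
        c * x l = x l * c := by
      intro l b hb hb1 hcb
      have h5 : x l ∈ zpowers b := by
        have h6 : zpowers b = zpowers (x l) := by
          apply Subgroup.eq_of_le_of_card_ge
          · rw [zpowers_le]; exact hb
          · rw [Nat.card_zpowers, Nat.card_zpowers, hx1 l]
            have h7 : orderOf b ∣ r := by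
              rw [← hx1 l]; exact orderOf_dvd_of_mem_zpowers hb
            rcases (Nat.dvd_prime hr.out).1 h7 with h8 | h8
            · exact absurd (orderOf_eq_one_iff.1 h8) hb1
            · rw [h8]
        rw [h6]; exact mem_zpowers _
      obtain ⟨u, hu⟩ := mem_zpowers_iff.1 h5
      have c1 : Commute c b := by
        show c * b = b * c
        calc c * b = (c * b * c⁻¹) * c := by group
          _ = b * c := by rw [hcb]
      rw [← hu]
      exact (c1.zpow_right u).eq
    exact hcent i j hij c (hgen' i a ha ha1 h5) (hgen' j b hb hb1 h6)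
  -- hence X j centralises M
  apply hj
  intro g hg
  obtain ⟨y, hy, z, hz, hyz⟩ := hfac i k hik g
  have h1 : g * x j = x j * g := hXX j g hg _ (hxX j)
  have h2 : z * x j = x j * z := hk z hz _ (hxM j)
  have h3 : y * x j = x j * y := by
    have c1 : Commute g (x j) := h1
    have c2 : Commute z (x j) := h2
    have e : y = g * z⁻¹ := by rw [hyz]; group
    rw [e]
    exact (c1.mul_left c2.inv_left).eq
  have h4 : y * x i = x i * y := hXX i y hy _ (hxX i)
  have h5 := hcent i j hij y h4 h3
  intro m hm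
  have c1 : Commute y m := h5 m hm
  have c2 : Commute z m := hk z hz m hm
  rw [hyz]
  exact (c1.mul_left c2).eq

end core

/-- a group which is a product of any two of three abelian subgroups of squarefree order, and
which has a Sylow tower, is abelian -/
theorem triple : ∀ (N : ℕ) (R : Type u) [Group R] [Finite R], Nat.card R = N → Tower R →
    ∀ X : Fin 3 → Subgroup R, (∀ i, Squarefree (Nat.card (X i))) →
    (∀ i, ∀ x ∈ X i, ∀ y ∈ X i, x * y = y * x) →
    (∀ i j, i ≠ j → ∀ g : R, ∃ x ∈ X i, ∃ y ∈ X j, g = x * y) →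
    ∀ x y : R, x * y = y * x := by
  intro N
  induction N using Nat.strong_induction_on with
  | _ N ih =>
  intro R _ _ hN hT X hsq hXX hfac
  by_cases hN1 : Nat.card R = 1
  · have := (Nat.card_eq_one_iff_unique.1 hN1).1
    intro x y
    exact Subsingleton.elim _ _
  -- the largest prime
  obtain ⟨r, hr, hrR, hrmax⟩ : ∃ r : ℕ, r.Prime ∧ r ∣ Nat.card R ∧
      ∀ p : ℕ, p.Prime → p ∣ Nat.card R → p ≤ r := by
    have hne : (Nat.card R).primeFactors.Nonempty := by
      rw [Nat.nonempty_primeFactors]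
      have := Nat.card_pos (α := R)
      omega
    refine ⟨(Nat.card R).primeFactors.max' hne, ?_, ?_, ?_⟩
    · exact Nat.prime_of_mem_primeFactors (Finset.max'_mem _ _)
    · exact Nat.dvd_of_mem_primeFactors (Finset.max'_mem _ _)
    · intro p hp h
      exact Finset.le_max' _ _ (Nat.mem_primeFactors.2 ⟨hp, h, Nat.card_pos.ne'⟩)
  have : Fact r.Prime := ⟨hr⟩
  obtain ⟨M, hMn, hM1, hM2⟩ := hT (r - 1)
  have hr2 := hr.two_le
  have hMi : ¬ r ∣ M.index := fun h => by
    have := hM2 r hr h
    omega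
  have hMprime : ∀ p, p.Prime → p ∣ Nat.card M → p = r := by
    intro p hp h
    have h1 := hM1 p hp h
    have h2 := hrmax p hp (h.trans M.card_subgroup_dvd_card)
    omega
  have hMpow : Nat.card M = r ^ (Nat.card M).primeFactorsList.length :=
    Nat.eq_prime_pow_of_unique_prime_dvd Nat.card_pos.ne' (fun {d} hd h => hMprime d hd h)
  have hMp : IsPGroup r M := IsPGroup.of_card hMpow
  obtain ⟨e, he⟩ : ∃ e, Nat.card M = r ^ e := ⟨_, hMpow⟩
  have hcard := M.card_mul_index
  have hrM : r ∣ Nat.card M := by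
    rw [← hcard] at hrR
    exact (hr.dvd_mul.1 hrR).resolve_right hMi
  -- r-elements lie in M
  have hmem : ∀ x : R, orderOf x = r → x ∈ M := by
    intro x hx
    apply hall_mem M r ((hr.coprime_iff_not_dvd.2 hMi).symm)
    rw [← hx]; exact pow_orderOf_eq_one x
  have hab : ∀ i j, i ≠ j → Nat.card (X i) * Nat.card (X j) =
      Nat.card (X i ⊓ X j : Subgroup R) * Nat.card R := fun i j hij =>
    card_prod (X i) (X j) (hfac i j hij)
  -- M is central
  have hcen : ∀ g : R, ∀ m ∈ M, g * m = m * g := by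
    -- two centralising factors suffice
    have htwo : ∀ i j, i ≠ j → (∀ g ∈ X i, ∀ m ∈ M, g * m = m * g) →
        (∀ g ∈ X j, ∀ m ∈ M, g * m = m * g) → ∀ g : R, ∀ m ∈ M, g * m = m * g := by
      intro i j hij hi hj g m hm
      obtain ⟨x, hx, y, hy, rfl⟩ := hfac i j hij g
      have c1 : Commute x m := hi x hx m hm
      have c2 : Commute y m := hj y hy m hm
      exact (c1.mul_left c2).eq
    by_contra hnot
    have hno : ∀ i j, i ≠ j → ¬ ((∀ g ∈ X i, ∀ m ∈ M, g * m = m * g) ∧
        (∀ g ∈ X j, ∀ m ∈ M, g * m = m * g)) := fun i j hij h =>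
      hnot (htwo i j hij h.1 h.2)
    have h01 := hno 0 1 (by decide)
    have h02 := hno 0 2 (by decide)
    have h12 := hno 1 2 (by decide)
    -- pairwise data
    have hdiv : ∀ i j, i ≠ j → r ∣ Nat.card (X i) ∨ r ∣ Nat.card (X j) := by
      intro i j hij
      apply hr.dvd_mul.1
      rw [hab i j hij]
      exact hrR.trans (dvd_mul_left _ _)
    by_cases he1 : e = 1
    · -- M of order r
      have hdc : ∀ i, r ∣ Nat.card (X i) → ∀ g ∈ X i, ∀ m ∈ M, g * m = m * g := by
        intro i hi g hg m hm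
        obtain ⟨x, hx⟩ := exists_prime_orderOf_dvd_card' (G := X i) r hi
        have hx' : orderOf (x : R) = r := by rw [Subgroup.orderOf_coe, hx]
        have hxM := hmem _ hx'
        have h1 : zpowers (x : R) = M := by
          apply Subgroup.eq_of_le_of_card_ge
          · rw [zpowers_le]; exact hxM
          · rw [he, he1, pow_one, Nat.card_zpowers, hx']
        rw [← h1] at hm
        have h2 : zpowers (x : R) ≤ X i := by rw [zpowers_le]; exact x.2
        exact hXX i g hg m (h2 hm)
      have hnd : ∀ i j, i ≠ j → ¬ (r ∣ Nat.card (X i) ∧ r ∣ Nat.card (X j)) := fun i j hij h =>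
        hno i j hij ⟨hdc i h.1, hdc j h.2⟩
      have a01 := hdiv 0 1 (by decide)
      have a02 := hdiv 0 2 (by decide)
      have a12 := hdiv 1 2 (by decide)
      have b01 := hnd 0 1 (by decide)
      have b02 := hnd 0 2 (by decide)
      have b12 := hnd 1 2 (by decide)
      tauto
    · -- M of order r ^ 2
      have he2 : 2 ≤ e := by
        rcases Nat.eq_zero_or_pos e with h | h
        · rw [h, pow_zero] at he
          rw [he] at hrM
          exact absurd (Nat.dvd_one.1 hrM) hr.one_lt.ne'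
        · omega
      have hr2R : r ^ 2 ∣ Nat.card R := by
        rw [← hcard, he]
        exact (pow_dvd_pow r he2).trans (dvd_mul_right _ _)
      have hnsq : ∀ i, ¬ r ^ 2 ∣ Nat.card (X i) := by
        intro i h
        have h1 := hsq i r (by rwa [← sq])
        exact hr.one_lt.ne' (Nat.isUnit_iff.1 h1)
      have hboth : ∀ i j, i ≠ j → r ∣ Nat.card (X i) := by
        intro i j hij
        by_contra h
        have h1 : r ^ 2 ∣ Nat.card (X i) * Nat.card (X j) := by
          rw [hab i j hij]; exact hr2R.trans (dvd_mul_left _ _)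
        have h2 : Nat.Coprime (r ^ 2) (Nat.card (X i)) :=
          Nat.Coprime.pow_left _ (hr.coprime_iff_not_dvd.2 h)
        exact hnsq j (h2.dvd_of_dvd_mul_left h1)
      have hdivi : ∀ i, r ∣ Nat.card (X i) := by
        intro i
        obtain ⟨j, hij⟩ : ∃ j : Fin 3, i ≠ j := (by decide : ∀ i : Fin 3, ∃ j : Fin 3, i ≠ j) i
        exact hboth i j hij
      have hexp : ∀ i, ∃ u, Nat.card (X i) = r * u ∧ ¬ r ∣ u := by
        intro i
        obtain ⟨u, hu⟩ := hdivi i
        refine ⟨u, hu, ?_⟩
        rintro ⟨w, hw⟩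
        apply hnsq i
        exact ⟨w, by rw [hu, hw]; ring⟩
      obtain ⟨v, hv⟩ := hr2R
      have hrv : ∀ i j, i ≠ j → ¬ r ∣ Nat.card (X i ⊓ X j : Subgroup R) * v := by
        intro i j hij h
        obtain ⟨u, hu, hu'⟩ := hexp i
        obtain ⟨w, hw, hw'⟩ := hexp j
        have h1 := hab i j hij
        rw [hu, hw, hv] at h1
        have h2 : u * w = Nat.card (X i ⊓ X j : Subgroup R) * v := by
          have h3 : r ^ 2 * (u * w) = r ^ 2 * (Nat.card (X i ⊓ X j : Subgroup R) * v) := by
            rw [show r ^ 2 * (u * w) = r * u * (r * w) by ring, h1]; ring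
          exact Nat.eq_of_mul_eq_mul_left (by positivity) h3
        rw [← h2] at h
        rcases hr.dvd_mul.1 h with h | h
        · exact hu' h
        · exact hw' h
      have hec : Nat.card M = r ^ 2 := by
        have h1 : e = 2 := by
          by_contra hne
          have h3 : 3 ≤ e := by omega
          have h4 : r ^ 3 ∣ r ^ 2 * v := by
            rw [← hv, ← hcard, he]
            exact (pow_dvd_pow r h3).trans (dvd_mul_right _ _)
          have h5 : r ∣ v := by
            rw [pow_succ] at h4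
            exact Nat.dvd_of_mul_dvd_mul_left (by positivity) h4
          exact hrv 0 1 (by decide) (h5.trans (dvd_mul_left _ _))
        rw [he, h1]
      have hy : ∀ i, ∃ y : X i, orderOf y = r := fun i =>
        exists_prime_orderOf_dvd_card' r (hdivi i)
      choose y hy using hy
      have hyo : ∀ i, orderOf ((y i : X i) : R) = r := fun i => by
        rw [Subgroup.orderOf_coe, hy i]
      have hind : ∀ i j, i ≠ j → zpowers ((y i : X i) : R) ⊓ zpowers ((y j : X j) : R) = ⊥ := by
        intro i j hij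
        rw [eq_bot_iff]
        intro z hz
        rw [mem_bot]
        by_contra hz1
        have h1 : zpowers ((y i : X i) : R) ≤ X i := by rw [zpowers_le]; exact (y i).2
        have h2 : zpowers ((y j : X j) : R) ≤ X j := by rw [zpowers_le]; exact (y j).2
        have h3 : orderOf z ∣ r := by
          rw [← hyo i]; exact orderOf_dvd_of_mem_zpowers hz.1
        rcases (Nat.dvd_prime hr).1 h3 with h4 | h4
        · exact hz1 (orderOf_eq_one_iff.1 h4)
        · apply hrv i j hij
          have h5 : z ∈ X i ⊓ X j := ⟨h1 hz.1, h2 hz.2⟩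
          have h6 := Subgroup.orderOf_dvd_natCard (X i ⊓ X j) h5
          rw [h4] at h6
          exact h6.trans (dvd_mul_right _ _)
      have hMc : ∀ x ∈ M, ∀ y ∈ M, x * y = y * x := by
        have h1 := IsPGroup.isMulCommutative_of_card_eq_prime_sq hec
        intro x hx y hy
        exact congrArg Subtype.val (h1.is_comm.comm ⟨x, hx⟩ ⟨y, hy⟩)
      have hito := ito (X 0) (X 1) (hfac 0 1 (by decide)) (hXX 0) (hXX 1)
      have hRM : ∀ c ∈ commutator R, ∀ m ∈ M, Commute c m := by
        intro c hc m hm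
        apply trick M hMp hMi c m
        · rw [commutatorElement_def]
          exact M.mul_mem (hMn.conj_mem m hm c) (M.inv_mem hm)
        · apply hito c hc
          rw [commutatorElement_def]
          have : c * m * c⁻¹ * m⁻¹ = c * (m * c⁻¹ * m⁻¹) := by group
          rw [this]
          exact (commutator R).mul_mem hc
            ((inferInstance : (commutator R).Normal).conj_mem c⁻¹ ((commutator R).inv_mem hc) m)
        · intro m' hm'
          exact hMc m' hm' m hm
      have hact : ∀ g h m : R, m ∈ M → g * (h * m * h⁻¹) * g⁻¹ = h * (g * m * g⁻¹) * h⁻¹ := by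
        intro g h m hm
        have h1 : ⁅h⁻¹, g⁻¹⁆ ∈ commutator R := by
          rw [commutator_def]
          exact Subgroup.commutator_mem_commutator (mem_top _) (mem_top _)
        have h2 := hRM _ h1 m hm
        have h3 : ⁅h⁻¹, g⁻¹⁆ * m * ⁅h⁻¹, g⁻¹⁆⁻¹ = m := by
          rw [h2.eq]; group
        have h4 : h * (g * m * g⁻¹) * h⁻¹ =
            g * (h * (⁅h⁻¹, g⁻¹⁆ * m * ⁅h⁻¹, g⁻¹⁆⁻¹) * h⁻¹) * g⁻¹ := by
          simp only [commutatorElement_def]; group
        rw [h4, h3]
      have hcore := @core R _ _ M X hXX hfac hMn r _ hec hMc hact (fun i => ((y i : X i) : R))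
        (fun i => (y i).2) (fun i => hmem _ (hyo i)) hyo hind
      by_cases c0 : ∀ g ∈ X 0, ∀ m ∈ M, g * m = m * g
      · have c1 : ¬ ∀ g ∈ X 1, ∀ m ∈ M, g * m = m * g := fun h => h01 ⟨c0, h⟩
        have c2 : ¬ ∀ g ∈ X 2, ∀ m ∈ M, g * m = m * g := fun h => h02 ⟨c0, h⟩
        exact hcore (i := 1) (j := 2) (k := 0) (by decide) (by decide) (by decide) c1 c2
      · by_cases c1 : ∀ g ∈ X 1, ∀ m ∈ M, g * m = m * g
        · have c2 : ¬ ∀ g ∈ X 2, ∀ m ∈ M, g * m = m * g := fun h => h12 ⟨c1, h⟩
          exact hcore (i := 0) (j := 2) (k := 1) (by decide) (by decide) (by decide) c0 c2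
        · exact hcore (i := 0) (j := 1) (k := 2) (by decide) (by decide) (by decide) c0 c1
  -- induction
  have hlt : Nat.card (R ⧸ M) < N := by
    rw [← hN]
    have h1 : Nat.card (R ⧸ M) = M.index := rfl
    have h2 : 0 < M.index := Nat.pos_of_ne_zero Subgroup.FiniteIndex.index_ne_zero
    have h3 : 2 ≤ Nat.card M := hr2.trans (Nat.le_of_dvd Nat.card_pos hrM)
    rw [h1, ← hcard]
    nlinarith
  have hq := ih _ hlt (R ⧸ M) rfl (hT.map (QuotientGroup.mk' M) (QuotientGroup.mk'_surjective M))
    (fun i => (X i).map (QuotientGroup.mk' M))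
    (fun i => (hsq i).squarefree_of_dvd (Subgroup.card_map_dvd _ _))
    (by
      rintro i _ ⟨x, hx, rfl⟩ _ ⟨y, hy, rfl⟩
      rw [← map_mul, hXX i x hx y hy, map_mul])
    (by
      intro i j hij g
      obtain ⟨g, rfl⟩ := QuotientGroup.mk'_surjective M g
      obtain ⟨x, hx, y, hy, rfl⟩ := hfac i j hij g
      exact ⟨_, ⟨x, hx, rfl⟩, _, ⟨y, hy, rfl⟩, map_mul _ _ _⟩)
  intro x y
  have h1 : ⁅x, y⁆ ∈ M := by
    rw [← QuotientGroup.eq_one_iff]
    have h2 : QuotientGroup.mk' M ⁅x, y⁆ = 1 := by
      rw [map_commutatorElement]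
      exact commutatorElement_eq_one_iff_mul_comm.2 (hq _ _)
    exact h2
  have h2 : Commute x ⁅x, y⁆ := hcen x _ h1
  have h3 : Commute (x ^ M.index) y := (hcen y _ (M.pow_index_mem x)).symm
  have h4 := pow_trivial x y h2 M.index h3
  have h5 := eq_one_of_pow M hMp _ hMi _ h1 h4
  exact commutatorElement_eq_one_iff_mul_comm.1 h5

end Pool.Agent.Helper354.Pcp
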