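import Mathlib
import Pool.Agent.Helper354.Pcp.Triple

set_option autoImplicit false

namespace Pool.Agent.Helper354.Pcp

open Subgroup
open scoped commutatorElement

universe u

theorem comm_centralizes {G : Type u} [Group G] [Finite G] (Q A : Subgroup G) [hQn : Q.Normal]
    {q : ℕ} [hq : Fact q.Prime] (hQ2 : Nat.card Q = q ^ 2) (hQi : ¬ q ∣ Q.index)
    (hAQ : Nat.card (A ⊓ Q : Subgroup G) = q) (u v : G) (hu : u ∈ A) (hv : v ∈ A) :
    ∀ x ∈ Q, Commute ⁅u, v⁆ x := by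
  have hQp : IsPGroup q Q := IsPGroup.of_card hQ2
  have hQc : ∀ x ∈ Q, ∀ y ∈ Q, x * y = y * x := by
    have h1 := IsPGroup.isMulCommutative_of_card_eq_prime_sq hQ2
    intro x hx y hy
    exact congrArg Subtype.val (h1.is_comm.comm ⟨x, hx⟩ ⟨y, hy⟩)
  -- action on A ⊓ Q
  let T : Subgroup G := A ⊓ Q
  have hTc : IsCyclic T := isCyclic_of_prime_card (p := q) hAQ
  have hTconj : ∀ w ∈ A, ∀ z ∈ T, w * z * w⁻¹ ∈ T := fun w hw z hz =>
    ⟨A.mul_mem (A.mul_mem hw hz.1) (A.inv_mem hw), hQn.conj_mem z hz.2 w⟩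
  have hpow : ∀ w ∈ A, ∃ m : ℤ, ∀ z ∈ T, w * z * w⁻¹ = z ^ m := by
    intro w hw
    let f : T →* T :=
      { toFun := fun z => ⟨w * z * w⁻¹, hTconj w hw z z.2⟩
        map_one' := by apply Subtype.ext; simp
        map_mul' := by
          intro a b
          apply Subtype.ext
          show w * ((a : G) * b) * w⁻¹ = (w * a * w⁻¹) * (w * b * w⁻¹)
          group }
    obtain ⟨m, hm⟩ := MonoidHom.map_cyclic f
    refine ⟨m, fun z hz => ?_⟩
    have := congrArg Subtype.val (hm ⟨z, hz⟩)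
    simpa [f] using this
  have hpp : ∀ z ∈ T, u * (v * z * v⁻¹) * u⁻¹ = v * (u * z * u⁻¹) * v⁻¹ := by
    intro z hz
    obtain ⟨m, hm⟩ := hpow u hu
    obtain ⟨n, hn⟩ := hpow v hv
    rw [hn z hz, hm z hz, hm _ (zpow_mem hz n), hn _ (zpow_mem hz m), ← zpow_mul, ← zpow_mul,
      mul_comm]
  have hc1 : ∀ z ∈ T, Commute ⁅u, v⁆ z := by
    intro z hz
    have hz' : u⁻¹ * (v⁻¹ * z * v⁻¹⁻¹) * u⁻¹⁻¹ ∈ T :=
      hTconj _ (A.inv_mem hu) _ (hTconj _ (A.inv_mem hv) _ hz)
    have h1 := hpp _ hz'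
    have h2 : ⁅u, v⁆ * z * ⁅u, v⁆⁻¹ = z := by
      calc ⁅u, v⁆ * z * ⁅u, v⁆⁻¹
          = u * (v * (u⁻¹ * (v⁻¹ * z * v⁻¹⁻¹) * u⁻¹⁻¹) * v⁻¹) * u⁻¹ := by
            simp only [commutatorElement_def]; group
        _ = v * (u * (u⁻¹ * (v⁻¹ * z * v⁻¹⁻¹) * u⁻¹⁻¹) * u⁻¹) * v⁻¹ := h1
        _ = z := by group
    show ⁅u, v⁆ * z = z * ⁅u, v⁆
    calc ⁅u, v⁆ * z = (⁅u, v⁆ * z * ⁅u, v⁆⁻¹) * ⁅u, v⁆ := by group
      _ = z * ⁅u, v⁆ := by rw [h2]
  -- action on Q / (A ⊓ Q)
  let N : Subgroup Q := A.subgroupOf Q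
  have hNn : N.Normal := by
    constructor
    intro a ha b
    have : b * a * b⁻¹ = a := by
      have h1 : b * a = a * b := Subtype.ext (hQc b b.2 a a.2)
      rw [h1]; group
    rw [this]; exact ha
  have hNc : Nat.card N = q := by
    rw [← Subgroup.card_map_of_injective (K := A.subgroupOf Q) Q.subtype_injective,
      Subgroup.subgroupOf_map_subtype, hAQ]
  have hNi : Nat.card (Q ⧸ N) = q := by
    have h1 := N.card_mul_index
    rw [hNc, hQ2, sq] at h1
    exact Nat.eq_of_mul_eq_mul_left hq.out.pos h1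
  have hQNc : IsCyclic (Q ⧸ N) := isCyclic_of_prime_card (p := q) hNi
  have hpow2 : ∀ w ∈ A, ∃ m : ℤ, ∀ z : Q,
      (QuotientGroup.mk (MulAut.conjNormal w z) : Q ⧸ N) = (QuotientGroup.mk z) ^ m := by
    intro w hw
    have hle : N ≤ N.comap (MulAut.conjNormal w : MulAut Q).toMonoidHom := by
      intro z hz
      have hz' : (z : G) ∈ A := hz
      show ((MulAut.conjNormal w z : Q) : G) ∈ A
      rw [MulAut.conjNormal_apply]
      exact A.mul_mem (A.mul_mem hw hz') (A.inv_mem hw)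
    obtain ⟨m, hm⟩ := MonoidHom.map_cyclic
      (QuotientGroup.map N N (MulAut.conjNormal w : MulAut Q).toMonoidHom hle)
    exact ⟨m, fun z => hm (QuotientGroup.mk z)⟩
  have hc2 : ∀ x ∈ Q, ⁅⁅u, v⁆, x⁆ ∈ A := by
    intro x hx
    obtain ⟨m, hm⟩ := hpow2 u hu
    obtain ⟨n, hn⟩ := hpow2 v hv
    let z : Q := MulAut.conjNormal u⁻¹ (MulAut.conjNormal v⁻¹ ⟨x, hx⟩)
    have e1 : (QuotientGroup.mk (MulAut.conjNormal u (MulAut.conjNormal v z)) : Q ⧸ N) =
        QuotientGroup.mk (MulAut.conjNormal v (MulAut.conjNormal u z)) := by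
      rw [hm, hn, hn, hm, ← zpow_mul, ← zpow_mul, mul_comm]
    rw [QuotientGroup.eq] at e1
    have e2 : (((MulAut.conjNormal u (MulAut.conjNormal v z))⁻¹ *
        MulAut.conjNormal v (MulAut.conjNormal u z) : Q) : G) ∈ A := e1
    have e3 : (((MulAut.conjNormal u (MulAut.conjNormal v z))⁻¹ *
        MulAut.conjNormal v (MulAut.conjNormal u z) : Q) : G) =
        (⁅u, v⁆ * x * ⁅u, v⁆⁻¹)⁻¹ * x := by
      simp only [z, Subgroup.coe_mul, Subgroup.coe_inv, MulAut.conjNormal_apply,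
        commutatorElement_def]
      group
    rw [e3] at e2
    have e4 : ⁅⁅u, v⁆, x⁆ = ((⁅u, v⁆ * x * ⁅u, v⁆⁻¹)⁻¹ * x)⁻¹ := by
      have h1 : ⁅u, v⁆ * x * ⁅u, v⁆⁻¹ ∈ Q := hQn.conj_mem x hx _
      rw [mul_inv_rev, inv_inv, hQc _ (Q.inv_mem hx) _ h1]
      rfl
    rw [e4]
    exact A.inv_mem e2
  intro x hx
  have hwx : ⁅⁅u, v⁆, x⁆ ∈ Q := by
    rw [commutatorElement_def]
    exact Q.mul_mem (hQn.conj_mem x hx _) (Q.inv_mem hx)
  exact trick Q hQp hQi _ x hwx (hc1 _ ⟨hc2 x hx, hwx⟩) (fun m hm => hQc m hm x hx)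

theorem fac_of_pcp {G : Type u} [Group G] [Finite G] {A B : Subgroup G}
    (hc : Nat.card A * Nat.card B = Nat.card G) (hd : A ⊓ B = ⊥) (g : G) :
    ∃ a ∈ A, ∃ b ∈ B, g = a * b := by
  have hcomp : IsComplement' A B :=
    isComplement'_of_card_mul_and_disjoint hc (disjoint_iff.2 hd)
  obtain ⟨⟨⟨a, ha⟩, ⟨b, hb⟩⟩, hg⟩ := hcomp.2 g
  exact ⟨a, ha, b, hb, hg.symm⟩

theorem metab : ∀ (s : ℕ), 0 < s → Squarefree s → ∀ (G : Type u) [Group G] [Finite G],
    Nat.card G = s ^ 2 → ∀ U : Fin 3 → Subgroup G, (∀ i, Nat.card (U i) = s) →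
      (∀ i j, i ≠ j → U i ⊓ U j = ⊥) →
      ∀ x ∈ commutator G, ∀ y ∈ commutator G, x * y = y * x := by
  intro s
  induction s using Nat.strong_induction_on with
  | _ s ih =>
  intro hs0 hsq G _ _ hG U hU hd
  by_cases hs1 : s = 1
  · have h1 : Nat.card G = 1 := by rw [hG, hs1, one_pow]
    have := (Nat.card_eq_one_iff_unique.1 h1).1
    intro x _ y _
    exact Subsingleton.elim _ _
  have hsp : ∀ p : ℕ, p.Prime → ¬ p ^ 2 ∣ s := by
    intro p hp h
    have h1 := hsq p (by rwa [← sq])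
    exact hp.one_lt.ne' (Nat.isUnit_iff.1 h1)
  -- the largest prime
  obtain ⟨q, hq, hqs, hqmax⟩ : ∃ r : ℕ, r.Prime ∧ r ∣ s ∧ ∀ p : ℕ, p.Prime → p ∣ s → p ≤ r := by
    have hne : s.primeFactors.Nonempty := by
      rw [Nat.nonempty_primeFactors]; omega
    refine ⟨s.primeFactors.max' hne, ?_, ?_, ?_⟩
    · exact Nat.prime_of_mem_primeFactors (Finset.max'_mem _ _)
    · exact Nat.dvd_of_mem_primeFactors (Finset.max'_mem _ _)
    · intro p hp h
      exact Finset.le_max' _ _ (Nat.mem_primeFactors.2 ⟨hp, h, hs0.ne'⟩)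
  have : Fact q.Prime := ⟨hq⟩
  have hq2 := hq.two_le
  obtain ⟨Q, hQn, m, t, hmt, hm, ht, hQc, hQU, -⟩ :=
    main (q - 1) s hs0 (fun p hp _ => hsp p hp) G hG U hU hd
  have hqt : q ∣ t := by
    rw [hmt] at hqs
    refine (hq.dvd_mul.1 hqs).resolve_left (fun h => ?_)
    have := hm q hq h
    omega
  have htq : t = q := by
    obtain ⟨c, hc⟩ := hqt
    by_cases hc1 : c = 1
    · rw [hc, hc1, mul_one]
    exfalso
    obtain ⟨r, hr, hrc⟩ := Nat.exists_prime_and_dvd hc1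
    have h1 : r ∣ t := by rw [hc]; exact hrc.trans (dvd_mul_left _ _)
    have h2 := ht r hr h1
    have h3 := hqmax r hr (by rw [hmt]; exact h1.trans (dvd_mul_left _ _))
    have h4 : r = q := by omega
    apply hsp q hq
    rw [h4] at hrc
    rw [hmt, hc, sq]
    exact (mul_dvd_mul_left q hrc).trans (dvd_mul_left _ _)
  rw [htq] at hQc hQU hmt
  have hm0 : 0 < m := by
    rcases Nat.eq_zero_or_pos m with h | h
    · rw [h] at hmt; omega
    · exact h
  have hms : m < s := by rw [hmt]; nlinarith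
  have hmsq : Squarefree m := hsq.squarefree_of_dvd ⟨q, hmt⟩
  have hqm : ¬ q ∣ m := by
    intro h
    apply hsp q hq
    rw [hmt, sq]
    exact mul_dvd_mul_right h q
  have hQi : Q.index = m ^ 2 := by
    have h1 := Q.card_mul_index
    rw [hQc, hG, hmt, mul_pow, mul_comm (m ^ 2)] at h1
    exact Nat.eq_of_mul_eq_mul_left (by positivity) h1
  have hqi : ¬ q ∣ Q.index := by
    rw [hQi]; intro h; exact hqm (hq.dvd_of_dvd_pow h)
  have hfac : ∀ i j, i ≠ j → ∀ g : G, ∃ x ∈ U i, ∃ y ∈ U j, g = x * y := fun i j hij =>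
    fac_of_pcp (by rw [hU i, hU j, hG, sq]) (hd i j hij)
  have hT : Tower G := by
    intro n
    obtain ⟨K, hK, m', t', hmt', hm', ht', hKc, -, -⟩ :=
      main n s hs0 (fun p hp _ => hsp p hp) G hG U hU hd
    refine ⟨K, hK, fun p hp h => ht' p hp (hp.dvd_of_dvd_pow (by rwa [hKc] at h)), ?_⟩
    have ht'0 : 0 < t' := by
      rcases Nat.eq_zero_or_pos t' with h | h
      · rw [h] at hmt'; omega
      · exact h
    have hKi : K.index = m' ^ 2 := by
      have h1 := K.card_mul_index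
      rw [hKc, hG, hmt', mul_pow, mul_comm (m' ^ 2)] at h1
      exact Nat.eq_of_mul_eq_mul_left (by positivity) h1
    intro p hp h
    rw [hKi] at h
    exact hm' p hp (hp.dvd_of_dvd_pow h)
  -- the action on Q is abelian
  let C : Subgroup G := centralizer (Q : Set G)
  have hCn : C.Normal := inferInstance
  have hcomm := triple _ (G ⧸ C) rfl (hT.map (QuotientGroup.mk' C)
      (QuotientGroup.mk'_surjective C))
    (fun i => (U i).map (QuotientGroup.mk' C))
    (fun i => Squarefree.squarefree_of_dvd (Subgroup.card_map_dvd _ _) (by rw [hU i]; exact hsq))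
    (by
      rintro i _ ⟨x, hx, rfl⟩ _ ⟨y, hy, rfl⟩
      have h1 : ⁅x, y⁆ ∈ C := by
        rw [mem_centralizer_iff]
        intro z hz
        exact (comm_centralizes Q (U i) hQc hqi (hQU i) x y hx hy z hz).eq.symm
      have h2 : QuotientGroup.mk' C ⁅x, y⁆ = 1 := (QuotientGroup.eq_one_iff _).2 h1
      rw [map_commutatorElement] at h2
      exact commutatorElement_eq_one_iff_mul_comm.1 h2)
    (by
      intro i j hij g
      obtain ⟨g, rfl⟩ := QuotientGroup.mk'_surjective C g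
      obtain ⟨x, hx, y, hy, rfl⟩ := hfac i j hij g
      exact ⟨_, ⟨x, hx, rfl⟩, _, ⟨y, hy, rfl⟩, map_mul _ _ _⟩)
  have hDC : commutator G ≤ C := by
    rw [commutator_def, Subgroup.commutator_le]
    intro g _ h _
    rw [← QuotientGroup.eq_one_iff]
    have h2 : QuotientGroup.mk' C ⁅g, h⁆ = 1 := by
      rw [map_commutatorElement]
      exact commutatorElement_eq_one_iff_mul_comm.2 (hcomm _ _)
    exact h2
  -- the quotient
  have hGQ : Nat.card (G ⧸ Q) = m ^ 2 := hQi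
  have hUQ : ∀ i, Nat.card ((U i).map (QuotientGroup.mk' Q)) = m := by
    intro i
    rw [← Subgroup.relIndex_ker, QuotientGroup.ker_mk']
    have h1 : Nat.card (Q.subgroupOf (U i)) = q := by
      rw [← Subgroup.card_map_of_injective (K := Q.subgroupOf (U i)) (U i).subtype_injective,
        Subgroup.subgroupOf_map_subtype, inf_comm, hQU i]
    have h2 := (Q.subgroupOf (U i)).card_mul_index
    rw [h1, hU i, hmt, mul_comm m q] at h2
    exact Nat.eq_of_mul_eq_mul_left hq.pos h2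
  have hdQ : ∀ i j, i ≠ j →
      (U i).map (QuotientGroup.mk' Q) ⊓ (U j).map (QuotientGroup.mk' Q) = ⊥ := by
    intro i j hij
    have h1 := card_prod ((U i).map (QuotientGroup.mk' Q)) ((U j).map (QuotientGroup.mk' Q)) (by
      intro g
      obtain ⟨g, rfl⟩ := QuotientGroup.mk'_surjective Q g
      obtain ⟨x, hx, y, hy, rfl⟩ := hfac i j hij g
      exact ⟨_, ⟨x, hx, rfl⟩, _, ⟨y, hy, rfl⟩, map_mul _ _ _⟩)
    rw [hUQ i, hUQ j, hGQ, ← sq] at h1
    apply Subgroup.card_eq_one.1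
    have h2 : 0 < m ^ 2 := by positivity
    exact (Nat.eq_of_mul_eq_mul_right h2 (by rw [one_mul]; exact h1)).symm
  have hIH := ih m hms hm0 hmsq (G ⧸ Q) hGQ (fun i => (U i).map (QuotientGroup.mk' Q)) hUQ hdQ
  intro x hx y hy
  have hmap : ∀ z ∈ commutator G, QuotientGroup.mk' Q z ∈ commutator (G ⧸ Q) := by
    have h1 : commutator G ≤ (commutator (G ⧸ Q)).comap (QuotientGroup.mk' Q) := by
      rw [commutator_def, Subgroup.commutator_le]
      intro g _ h _
      show QuotientGroup.mk' Q ⁅g, h⁆ ∈ commutator (G ⧸ Q)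
      rw [map_commutatorElement, commutator_def]
      exact Subgroup.commutator_mem_commutator (mem_top _) (mem_top _)
    intro z hz
    exact h1 hz
  have h1 : ⁅x, y⁆ ∈ Q := by
    rw [← QuotientGroup.eq_one_iff]
    have h2 : QuotientGroup.mk' Q ⁅x, y⁆ = 1 := by
      rw [map_commutatorElement]
      exact commutatorElement_eq_one_iff_mul_comm.2 (hIH _ (hmap x hx) _ (hmap y hy))
    exact h2
  have hQp : IsPGroup q Q := IsPGroup.of_card hQc
  have hxC := mem_centralizer_iff.1 (hDC hx)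
  have hyC := mem_centralizer_iff.1 (hDC hy)
  have h2 : Commute x ⁅x, y⁆ := (hxC _ h1).symm
  have h3 : Commute (x ^ Q.index) y := hyC _ (Q.pow_index_mem x)
  have h4 := pow_trivial x y h2 Q.index h3
  have h5 := eq_one_of_pow Q hQp _ hqi _ h1 h4
  exact commutatorElement_eq_one_iff_mul_comm.1 h5

end Pool.Agent.Helper354.Pcp
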