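import Mathlib
import Pool.Agent.Helper354.Pcp.Metab

set_option autoImplicit false

namespace Pool.Agent.Helper354.Pcp

open Subgroup
open scoped commutatorElement

universe u

/-- product of a subgroup and a subgroup normalising it -/
def prodSub {G : Type u} [Group G] (H K : Subgroup G)
    (h : ∀ k ∈ K, ∀ x ∈ H, k * x * k⁻¹ ∈ H) : Subgroup G where
  carrier := {g | ∃ x ∈ H, ∃ k ∈ K, g = x * k}
  mul_mem' := by
    rintro _ _ ⟨x, hx, k, hk, rfl⟩ ⟨y, hy, l, hl, rfl⟩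
    exact ⟨x * (k * y * k⁻¹), H.mul_mem hx (h k hk y hy), k * l, K.mul_mem hk hl, by group⟩
  one_mem' := ⟨1, H.one_mem, 1, K.one_mem, by simp⟩
  inv_mem' := by
    rintro _ ⟨x, hx, k, hk, rfl⟩
    refine ⟨k⁻¹ * x⁻¹ * k⁻¹⁻¹, h _ (K.inv_mem hk) _ (H.inv_mem hx), k⁻¹, K.inv_mem hk, by group⟩

theorem card_prodSub {G : Type u} [Group G] [Finite G] (H K : Subgroup G)
    (h : ∀ k ∈ K, ∀ x ∈ H, k * x * k⁻¹ ∈ H) (hd : H ⊓ K = ⊥) :
    Nat.card (prodSub H K h) = Nat.card H * Nat.card K := by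
  rw [← Nat.card_prod]
  symm
  let f : H × K → prodSub H K h := fun z => ⟨z.1 * z.2, z.1, z.1.2, z.2, z.2.2, rfl⟩
  have hf : Function.Bijective f := by
    constructor
    · rintro ⟨⟨x, hx⟩, ⟨k, hk⟩⟩ ⟨⟨y, hy⟩, ⟨l, hl⟩⟩ hab
      have h1 : x * k = y * l := congrArg Subtype.val hab
      have h2 : y⁻¹ * x = l * k⁻¹ := by
        have : y⁻¹ * (x * k) * k⁻¹ = y⁻¹ * (y * l) * k⁻¹ := by rw [h1]
        calc y⁻¹ * x = y⁻¹ * (x * k) * k⁻¹ := by group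
          _ = y⁻¹ * (y * l) * k⁻¹ := this
          _ = l * k⁻¹ := by group
      have h3 : y⁻¹ * x ∈ H ⊓ K :=
        ⟨H.mul_mem (H.inv_mem hy) hx, by rw [h2]; exact K.mul_mem hl (K.inv_mem hk)⟩
      rw [hd, mem_bot] at h3
      have h4 : x = y := (inv_mul_eq_one.1 h3).symm
      rw [h3] at h2
      have h5 : l = k := mul_inv_eq_one.1 h2.symm
      subst h4; subst h5; rfl
    · rintro ⟨_, x, hx, k, hk, rfl⟩
      exact ⟨(⟨x, hx⟩, ⟨k, hk⟩), rfl⟩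
  exact Nat.card_congr (Equiv.ofBijective f hf)

theorem zpow_norm {G : Type u} [Group G] [Finite G] (a c : G)
    (h : c * a * c⁻¹ ∈ zpowers a) : ∀ k ∈ zpowers c, ∀ x ∈ zpowers a, k * x * k⁻¹ ∈ zpowers a := by
  have h1 : ∀ x ∈ zpowers a, c * x * c⁻¹ ∈ zpowers a := by
    intro x hx
    obtain ⟨n, rfl⟩ := mem_zpowers_iff.1 hx
    have : c * a ^ n * c⁻¹ = (c * a * c⁻¹) ^ n := by rw [conj_zpow]
    rw [this]
    exact zpow_mem h n
  intro k hk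
  rw [← mem_powers_iff_mem_zpowers] at hk
  obtain ⟨n, rfl⟩ := Submonoid.mem_powers_iff _ _ |>.1 hk
  induction n with
  | zero => intro x hx; simpa using hx
  | succ n ih =>
    intro x hx
    have h2 := h1 _ (ih (Submonoid.mem_powers_iff _ _ |>.2 ⟨n, rfl⟩) x hx)
    have h3 : c ^ (n + 1) * x * (c ^ (n + 1))⁻¹ = c * (c ^ n * x * (c ^ n)⁻¹) * c⁻¹ := by
      rw [pow_succ']; group
    rw [h3]; exact h2

theorem build {G : Type u} [Group G] [Finite G] (P Q : Subgroup G) (hPQ : P ⊓ Q = ⊥) {p q : ℕ}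
    (a c : Fin 3 → G) (haQ : ∀ i, a i ∈ Q) (hcP : ∀ i, c i ∈ P)
    (hao : ∀ i, orderOf (a i) = q) (hco : ∀ i, orderOf (c i) = p)
    (haind : ∀ i j, i ≠ j → zpowers (a i) ⊓ zpowers (a j) = ⊥)
    (hcind : ∀ i j, i ≠ j → zpowers (c i) ⊓ zpowers (c j) = ⊥)
    (hnorm : ∀ i, c i * a i * (c i)⁻¹ ∈ zpowers (a i)) :
    ∃ U : Fin 3 → Subgroup G, (∀ i, Nat.card (U i) = p * q) ∧ ∀ i j, i ≠ j → U i ⊓ U j = ⊥ := by
  have hleQ : ∀ i, zpowers (a i) ≤ Q := fun i => by rw [zpowers_le]; exact haQ i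
  have hleP : ∀ i, zpowers (c i) ≤ P := fun i => by rw [zpowers_le]; exact hcP i
  refine ⟨fun i => prodSub (zpowers (a i)) (zpowers (c i)) (zpow_norm _ _ (hnorm i)), ?_, ?_⟩
  · intro i
    rw [card_prodSub]
    · rw [Nat.card_zpowers, Nat.card_zpowers, hao i, hco i, mul_comm]
    · rw [eq_bot_iff, ← hPQ]
      intro z hz
      exact ⟨hleP i hz.2, hleQ i hz.1⟩
  · intro i j hij
    rw [eq_bot_iff]
    rintro z ⟨⟨x, hx, k, hk, hz1⟩, ⟨y, hy, l, hl, hz2⟩⟩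
    have h1 : x * k = y * l := by rw [← hz1, ← hz2]
    have h2 : y⁻¹ * x = l * k⁻¹ := by
      have : y⁻¹ * (x * k) * k⁻¹ = y⁻¹ * (y * l) * k⁻¹ := by rw [h1]
      calc y⁻¹ * x = y⁻¹ * (x * k) * k⁻¹ := by group
        _ = y⁻¹ * (y * l) * k⁻¹ := this
        _ = l * k⁻¹ := by group
    have h3 : y⁻¹ * x ∈ P ⊓ Q :=
      ⟨by rw [h2]; exact P.mul_mem (hleP j hl) (P.inv_mem (hleP i hk)),
        Q.mul_mem (Q.inv_mem (hleQ j hy)) (hleQ i hx)⟩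
    rw [hPQ, mem_bot] at h3
    have h4 : x = y := (inv_mul_eq_one.1 h3).symm
    rw [h3] at h2
    have h5 : l = k := mul_inv_eq_one.1 h2.symm
    have h6 : x ∈ zpowers (a i) ⊓ zpowers (a j) := ⟨hx, by rw [h4]; exact hy⟩
    have h7 : k ∈ zpowers (c i) ⊓ zpowers (c j) := ⟨hk, by rw [← h5]; exact hl⟩
    rw [haind i j hij, mem_bot] at h6
    rw [hcind i j hij, mem_bot] at h7
    rw [mem_bot, hz1, h6, h7, one_mul]

end Pool.Agent.Helper354.Pcp
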