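import Mathlib

set_option autoImplicit false

namespace Pool.Agent.Helper354.Pcp

open Subgroup Polynomial

universe u

theorem eigAdd {W : Type u} [AddCommGroup W] [Finite W] [Nontrivial W] {p q : ℕ}
    [hq : Fact q.Prime] [Module (ZMod q) W]
    (hpq : p ∣ q - 1) (F : W →ₗ[ZMod q] W) (hf : ∀ x, F^[p] x = x) :
    ∃ a : W, a ≠ 0 ∧ ∃ l : ℕ, F a = l • a := by
  have hFk : ∀ (k : ℕ) (x : W), (F ^ k : Module.End (ZMod q) W) x = F^[k] x := by
    intro k
    induction k with
    | zero => intro x; simp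
    | succ k ih =>
      intro x
      rw [pow_succ, Module.End.mul_apply, ih, Function.iterate_succ_apply]
  have hFp : (F ^ p : Module.End (ZMod q) W) = 1 := by
    ext x
    rw [hFk p x, hf]
    rfl
  have hFq : (F ^ q : Module.End (ZMod q) W) = F := by
    obtain ⟨k, hk⟩ := hpq
    have h1 : q = p * k + 1 := by
      have := hq.out.one_lt
      omega
    have h2 : (F ^ (p * k + 1) : Module.End (ZMod q) W) = F := by
      rw [pow_succ, pow_mul, hFp, one_pow, one_mul]
    rw [← h1] at h2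
    exact h2
  have haev : aeval (F : Module.End (ZMod q) W) (X ^ q - X : (ZMod q)[X]) = 0 := by
    rw [map_sub, map_pow, aeval_X, hFq]
    exact sub_self _
  have hdvd : minpoly (ZMod q) (F : Module.End (ZMod q) W) ∣ (X ^ q - X : (ZMod q)[X]) :=
    minpoly.dvd _ _ haev
  have hspl : Splits (X ^ q - X : (ZMod q)[X]) := by
    have h1 := FiniteField.splits_X_pow_card_sub_X (K := ZMod q) q
    simpa using h1
  have hne : (X ^ q - X : (ZMod q)[X]) ≠ 0 := FiniteField.X_pow_card_sub_X_ne_zero _ hq.out.one_lt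
  have hs2 : Splits (minpoly (ZMod q) (F : Module.End (ZMod q) W)) := hspl.of_dvd hne hdvd
  have hfin : Module.Finite (ZMod q) W := Module.Finite.of_finite
  have hint : IsIntegral (ZMod q) (F : Module.End (ZMod q) W) := Algebra.IsIntegral.isIntegral _
  have hdeg : (minpoly (ZMod q) (F : Module.End (ZMod q) W)).degree ≠ 0 :=
    (minpoly.degree_pos hint).ne'
  obtain ⟨μ, hμ⟩ := hs2.exists_eval_eq_zero hdeg
  have heig : Module.End.HasEigenvalue (F : Module.End (ZMod q) W) μ :=
    Module.End.hasEigenvalue_of_isRoot hμ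
  obtain ⟨v, hv⟩ := heig.exists_hasEigenvector
  refine ⟨v, hv.2, μ.val, ?_⟩
  have h1 : F v = μ • v := hv.apply_eq_smul
  have h2 : μ • v = μ.val • v := by
    conv_lhs => rw [← ZMod.natCast_zmod_val μ]
    rw [Nat.cast_smul_eq_nsmul]
  rw [h1, h2]

theorem eig {V : Type u} [CommGroup V] [Finite V] [Nontrivial V] {p q : ℕ} [hq : Fact q.Prime]
    (hV : ∀ x : V, x ^ q = 1) (hpq : p ∣ q - 1) (f : V →* V) (hf : ∀ x, f^[p] x = x) :
    ∃ a : V, a ≠ 1 ∧ ∃ l : ℕ, f a = a ^ l := by
  have inst : Module (ZMod q) (Additive V) := AddCommGroup.zmodModule (n := q) (fun x => by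
    have := hV x.toMul
    exact this)
  obtain ⟨a, ha, l, hl⟩ := @eigAdd (Additive V) _ _ _ p q hq inst hpq
    (@AddMonoidHom.toZModLinearMap q (Additive V) (Additive V) _ _ inst inst f.toAdditive) (by
      intro x
      exact hf x.toMul)
  exact ⟨a.toMul, ha, l, hl⟩

theorem chi {V : Type u} [CommGroup V] {q : ℕ} [hq : Fact q.Prime]
    {P : Type u} [CommGroup P] (ρ : P →* MulAut V) (a : V) (ha : orderOf a = q)
    (h : ∀ g, ∃ n : ℕ, ρ g a = a ^ n) : ∃ α : P →* ZMod q, ∀ g, ρ g a = a ^ (α g).val := by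
  choose n hn using h
  have key : ∀ k l : ℕ, a ^ k = a ^ l → (k : ZMod q) = l := by
    intro k l hkl
    rw [pow_eq_pow_iff_modEq, ha] at hkl
    exact (ZMod.natCast_eq_natCast_iff _ _ q).2 hkl
  refine ⟨⟨⟨fun g => (n g : ZMod q), ?_⟩, ?_⟩, ?_⟩
  · have := key (n 1) 1 (by rw [← hn 1, map_one, pow_one]; rfl)
    simpa using this
  · intro g g'
    show ((n (g * g') : ℕ) : ZMod q) = (n g : ZMod q) * (n g' : ZMod q)
    rw [← Nat.cast_mul]
    apply key
    rw [← hn, map_mul, MulAut.mul_apply, hn g', map_pow, hn g, ← pow_mul]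
  · intro g
    show ρ g a = a ^ ((n g : ℕ) : ZMod q).val
    rw [ZMod.val_natCast, hn g, ← ha, pow_mod_orderOf]

theorem zpowers_inf_bot {V : Type u} [Group V] {q : ℕ} (hq : q.Prime) (a b : V)
    (ha : orderOf a = q) (hb : orderOf b = q) (h : b ∉ zpowers a) :
    zpowers a ⊓ zpowers b = ⊥ := by
  rw [eq_bot_iff]
  intro z hz
  rw [mem_bot]
  by_contra hz1
  apply h
  have : Finite (zpowers b) := by
    apply Nat.finite_of_card_ne_zero
    rw [Nat.card_zpowers, hb]; exact hq.ne_zero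
  have h1 : zpowers z = zpowers b := by
    apply Subgroup.eq_of_le_of_card_ge
    · rw [zpowers_le]; exact hz.2
    · rw [Nat.card_zpowers, Nat.card_zpowers, hb]
      have h7 : orderOf z ∣ q := by
        rw [← hb]; exact orderOf_dvd_of_mem_zpowers hz.2
      rcases (Nat.dvd_prime hq).1 h7 with h8 | h8
      · exact absurd (orderOf_eq_one_iff.1 h8) hz1
      · rw [h8]
  have h2 : b ∈ zpowers z := by rw [h1]; exact mem_zpowers _
  have h3 : zpowers z ≤ zpowers a := by rw [zpowers_le]; exact hz.1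
  exact h3 h2

theorem exists_indep {V : Type u} [Group V] [Finite V] {q : ℕ} (hq : q.Prime)
    (hVc : Nat.card V = q ^ 2) (hV : ∀ x : V, x ^ q = 1) (a : V) (ha : a ≠ 1) :
    ∃ b : V, b ≠ 1 ∧ zpowers a ⊓ zpowers b = ⊥ := by
  have hao : orderOf a = q := by
    rcases (Nat.dvd_prime hq).1 (orderOf_dvd_of_pow_eq_one (hV a)) with h | h
    · exact absurd (orderOf_eq_one_iff.1 h) ha
    · exact h
  have hne : zpowers a ≠ ⊤ := by
    intro h
    have h1 : Nat.card (zpowers a) = q ^ 2 := by rw [h, Subgroup.card_top, hVc]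
    rw [Nat.card_zpowers, hao] at h1
    have := hq.one_lt
    nlinarith
  obtain ⟨b, hb⟩ : ∃ b, b ∉ zpowers a := by
    by_contra h
    push Not at h
    exact hne (eq_top_iff.2 fun x _ => h x)
  have hb1 : b ≠ 1 := by
    rintro rfl; exact hb (one_mem _)
  have hbo : orderOf b = q := by
    rcases (Nat.dvd_prime hq).1 (orderOf_dvd_of_pow_eq_one (hV b)) with h | h
    · exact absurd (orderOf_eq_one_iff.1 h) hb1
    · exact h
  exact ⟨b, hb1, zpowers_inf_bot hq a b hao hbo hb⟩

end Pool.Agent.Helper354.Pcp
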