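import Mathlib
import Pool.Agent.Helper354.Pcp.Lines

set_option autoImplicit false

namespace Pool.Agent.Helper354.Pcp

open Subgroup Polynomial

universe u

theorem order_eq {V : Type u} [Group V] {q : ℕ} (hq : q.Prime) (a : V) (h : a ^ q = 1)
    (ha : a ≠ 1) : orderOf a = q := by
  rcases (Nat.dvd_prime hq).1 (orderOf_dvd_of_pow_eq_one h) with h | h
  · exact absurd (orderOf_eq_one_iff.1 h) ha
  · exact h

theorem lines {V : Type u} [CommGroup V] [Finite V] {p q : ℕ} (hp : p.Prime)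
    [hq : Fact q.Prime] (hVc : Nat.card V = q ^ 2) (hV : ∀ x : V, x ^ q = 1)
    {P : Type u} [CommGroup P] [Finite P] (hPc : Nat.card P = p ^ 2) (hP : ∀ g : P, g ^ p = 1)
    (hpq : p ∣ q - 1) (ρ : P →* MulAut V) :
    ∃ (a b : V) (c : P), a ≠ 1 ∧ b ≠ 1 ∧ zpowers a ⊓ zpowers b = ⊥ ∧
      (∀ g, ρ g a ∈ zpowers a) ∧ (∀ g, ρ g b ∈ zpowers b) ∧ c ≠ 1 ∧
      ρ c (a * b) ∈ zpowers (a * b) := by
  have hp1 := hp.one_lt
  have hq1 := hq.out.one_lt
  have hpltq : p < q := by
    have := Nat.le_of_dvd (by omega) hpq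
    omega
  have hPnt : ∃ c : P, c ≠ 1 := by
    have : Nontrivial P := by
      rw [← Finite.one_lt_card_iff_nontrivial, hPc]
      exact Nat.one_lt_pow (by norm_num) hp1
    exact exists_ne 1
  have hVnt : Nontrivial V := by
    rw [← Finite.one_lt_card_iff_nontrivial, hVc]
    exact Nat.one_lt_pow (by norm_num) hq1
  by_cases hS : ∀ (g : P) (x : V), ρ g x ∈ zpowers x
  · obtain ⟨a, ha⟩ := exists_ne (1 : V)
    obtain ⟨b, hb, hab⟩ := exists_indep hq.out hVc hV a ha
    obtain ⟨c, hc⟩ := hPnt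
    exact ⟨a, b, c, ha, hb, hab, fun g => hS g a, fun g => hS g b, hc, hS c _⟩
  push Not at hS
  obtain ⟨g, x₀, hx₀⟩ := hS
  have hit : ∀ (h : P) (k : ℕ) (x : V), ((ρ h).toMonoidHom)^[k] x = ρ (h ^ k) x := by
    intro h k
    induction k with
    | zero => intro x; simp
    | succ k ih =>
      intro x
      rw [Function.iterate_succ_apply, ih, pow_succ, map_mul, MulAut.mul_apply]
      rfl
  obtain ⟨a, ha, l, hl⟩ := eig hV hpq (ρ g).toMonoidHom (fun x => by
    rw [hit, hP]; simp)
  have hl' : ρ g a = a ^ l := hl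
  have hao := order_eq hq.out a (hV a) ha
  let φ : V →* V := (ρ g).toMonoidHom / powMonoidHom l
  have hφ : ∀ x, φ x = ρ g x / x ^ l := fun x => rfl
  have hφc : ∀ (h : P) (x : V), φ (ρ h x) = ρ h (φ x) := by
    intro h x
    rw [hφ, hφ, _root_.map_div, map_pow]
    have : ρ g (ρ h x) = ρ h (ρ g x) := by
      rw [← MulAut.mul_apply, ← MulAut.mul_apply, ← map_mul, ← map_mul, mul_comm]
    rw [this]
  have hEI : Nat.card φ.ker * Nat.card φ.range = q ^ 2 := by
    rw [← hVc, ← Subgroup.index_ker]; exact φ.ker.card_mul_index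
  have haE : a ∈ φ.ker := by
    rw [MonoidHom.mem_ker, hφ, hl', div_self']
  have hEne : φ.ker ≠ ⊤ := by
    intro h
    have h1 : x₀ ∈ φ.ker := by rw [h]; trivial
    rw [MonoidHom.mem_ker, hφ, div_eq_one] at h1
    apply hx₀
    rw [h1]
    exact pow_mem (mem_zpowers x₀) l
  have hEc : Nat.card φ.ker = q := by
    obtain ⟨k, hk, hk'⟩ := (Nat.dvd_prime_pow hq.out).1 (Dvd.intro _ hEI)
    interval_cases k
    · exfalso
      have h1 : φ.ker = ⊥ := Subgroup.card_eq_one.1 (by simpa using hk')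
      rw [h1, mem_bot] at haE
      exact ha haE
    · simpa using hk'
    · exfalso
      exact hEne (Subgroup.eq_top_of_card_eq _ (by rw [hk', hVc]))
  have hIc : Nat.card φ.range = q := by
    rw [hEc, sq] at hEI
    exact Nat.eq_of_mul_eq_mul_left hq.out.pos hEI
  have hEa : φ.ker = zpowers a := by
    symm
    apply Subgroup.eq_of_le_of_card_ge
    · rw [zpowers_le]; exact haE
    · rw [hEc, Nat.card_zpowers, hao]
  obtain ⟨b, hbI, hb⟩ : ∃ b ∈ φ.range, b ≠ 1 := by
    by_contra h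
    push Not at h
    have h1 : φ.range = ⊥ := by
      rw [eq_bot_iff]; intro z hz; rw [mem_bot]; exact h z hz
    rw [h1, Subgroup.card_bot] at hIc
    omega
  have hbo := order_eq hq.out b (hV b) hb
  have hIb : φ.range = zpowers b := by
    symm
    apply Subgroup.eq_of_le_of_card_ge
    · rw [zpowers_le]; exact hbI
    · rw [hIc, Nat.card_zpowers, hbo]
  -- the two lines are different
  have hlp : l ^ p ≡ 1 [MOD q] := by
    have h1 : ∀ k : ℕ, ρ (g ^ k) a = a ^ (l ^ k) := by
      intro k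
      induction k with
      | zero => simp
      | succ k ih =>
        rw [pow_succ, map_mul, MulAut.mul_apply, hl', map_pow, ih, ← pow_mul, pow_succ]
    have h2 := h1 p
    rw [hP, map_one] at h2
    have h3 : a ^ 1 = a ^ (l ^ p) := by rw [pow_one]; exact h2
    rw [pow_eq_pow_iff_modEq, hao] at h3
    exact h3.symm
  have hql : ¬ q ∣ l := by
    intro h
    have h1 : l ^ p ≡ 0 [MOD q] := (Nat.modEq_zero_iff_dvd).2 (h.trans (dvd_pow_self l hp.ne_zero))
    have h2 := hlp.symm.trans h1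
    rw [Nat.modEq_zero_iff_dvd] at h2
    exact hq.out.one_lt.ne' (Nat.dvd_one.1 h2)
  have hbE : b ∉ zpowers a := by
    rw [← hEa]
    intro hbk
    obtain ⟨x, hx⟩ := hbI
    have e1 : ρ g x = x ^ l * b := by
      rw [← hx, hφ]; simp
    have e2 : ρ g b = b ^ l := by
      rw [MonoidHom.mem_ker, hφ, div_eq_one] at hbk
      exact hbk
    have h1 : ∀ k : ℕ, ρ (g ^ (k + 1)) x = x ^ (l ^ (k + 1)) * b ^ ((k + 1) * l ^ k) := by
      intro k
      induction k with
      | zero => simp [e1]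
      | succ k ih =>
        rw [pow_succ', map_mul, MulAut.mul_apply, ih, map_mul, map_pow, map_pow, e1, e2, mul_pow,
          ← pow_mul, ← pow_mul, mul_assoc, ← pow_add]
        congr 2 <;> ring
    obtain ⟨k, rfl⟩ : ∃ k, p = k + 1 := ⟨p - 1, by omega⟩
    have h2 := h1 k
    rw [hP, map_one] at h2
    have h3 : x ^ (l ^ (k + 1)) = x := by
      have h4 : x ^ (l ^ (k + 1)) = x ^ 1 := by
        rw [pow_eq_pow_iff_modEq]
        exact hlp.of_dvd (orderOf_dvd_of_pow_eq_one (hV x))
      rw [h4, pow_one]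
    rw [h3] at h2
    have h5 : b ^ ((k + 1) * l ^ k) = 1 := by
      have h6 : x = x * b ^ ((k + 1) * l ^ k) := h2
      exact (mul_eq_left.1 h6.symm)
    have h6 : q ∣ (k + 1) * l ^ k := by rw [← hbo]; exact orderOf_dvd_of_pow_eq_one h5
    rcases hq.out.dvd_mul.1 h6 with h7 | h7
    · have := Nat.le_of_dvd (by omega) h7
      omega
    · exact hql (hq.out.dvd_of_dvd_pow h7)
  have hab := zpowers_inf_bot hq.out a b hao hbo hbE
  have hga : ∀ h, ρ h a ∈ zpowers a := by
    intro h
    rw [← hEa, MonoidHom.mem_ker, hφc]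
    rw [MonoidHom.mem_ker] at haE
    rw [haE, map_one]
  have hgb : ∀ h, ρ h b ∈ zpowers b := by
    intro h
    rw [← hIb]
    obtain ⟨x, hx⟩ := hbI
    exact ⟨ρ h x, by rw [hφc, hx]⟩
  have hnat : ∀ (a : V), (∀ h, ρ h a ∈ zpowers a) → ∀ h, ∃ n : ℕ, ρ h a = a ^ n := by
    intro a hga h
    have h1 := hga h
    rw [← mem_powers_iff_mem_zpowers] at h1
    obtain ⟨n, hn⟩ := (Submonoid.mem_powers_iff _ _).1 h1
    exact ⟨n, hn.symm⟩
  obtain ⟨α, hα⟩ := chi ρ a hao (hnat a hga)
  obtain ⟨β, hβ⟩ := chi ρ b hbo (hnat b hgb)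
  have hα0 : ∀ h, α h ≠ 0 := fun h h0 => by
    have h1 : α h ^ p = 1 := by rw [← map_pow, hP, map_one]
    rw [h0, zero_pow hp.ne_zero] at h1
    exact zero_ne_one h1
  have hβ0 : ∀ h, β h ≠ 0 := fun h h0 => by
    have h1 : β h ^ p = 1 := by rw [← map_pow, hP, map_one]
    rw [h0, zero_pow hp.ne_zero] at h1
    exact zero_ne_one h1
  -- some nontrivial element acts as a scalar
  obtain ⟨c, hc, hcc⟩ : ∃ c : P, c ≠ 1 ∧ α c = β c := by
    by_contra hno
    push Not at hno
    have hinj : Function.Injective (fun h : P => α h / β h) := by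
      intro h h' hh
      by_contra hne
      apply hno (h * h'⁻¹) (fun h1 => hne (mul_inv_eq_one.1 h1))
      have h1 : α h / β h = α h' / β h' := hh
      rw [div_eq_div_iff (hβ0 h) (hβ0 h')] at h1
      have h2 : α (h * h'⁻¹) * α h' = α h := by rw [← map_mul]; simp
      have h3 : β (h * h'⁻¹) * β h' = β h := by rw [← map_mul]; simp
      have h4 : α (h * h'⁻¹) * (α h' * β h') = β (h * h'⁻¹) * (α h' * β h') := by
        calc α (h * h'⁻¹) * (α h' * β h') = (α (h * h'⁻¹) * α h') * β h' := by ring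
          _ = α h * β h' := by rw [h2]
          _ = α h' * β h := h1
          _ = α h' * (β (h * h'⁻¹) * β h') := by rw [h3]
          _ = _ := by ring
      exact mul_right_cancel₀ (mul_ne_zero (hα0 h') (hβ0 h')) h4
    have hfint : Fintype P := Fintype.ofFinite P
    have hcard : Fintype.card P ≤ (nthRoots p (1 : ZMod q)).toFinset.card := by
      rw [← Finset.card_univ, ← Finset.card_image_of_injective Finset.univ hinj]
      apply Finset.card_le_card
      intro z hz
      obtain ⟨h, -, rfl⟩ := Finset.mem_image.1 hz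
      rw [Multiset.mem_toFinset, mem_nthRoots hp.pos, div_pow, ← map_pow, ← map_pow, hP, map_one,
        map_one, div_one]
    have h1 : (nthRoots p (1 : ZMod q)).toFinset.card ≤ p :=
      (Multiset.toFinset_card_le _).trans (card_nthRoots p 1)
    rw [← Nat.card_eq_fintype_card, hPc] at hcard
    nlinarith
  refine ⟨a, b, c, ha, hb, hab, hga, hgb, hc, ?_⟩
  rw [map_mul, hα, hβ, hcc, ← mul_pow]
  exact pow_mem (mem_zpowers _) _

end Pool.Agent.Helper354.Pcp
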