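import Mathlib
import Pool.Agent.Helper354.Pcp.Key

set_option autoImplicit false

namespace Pool.Agent.Helper354.Pcp

open Subgroup Polynomial

universe u

theorem lines2 {V : Type u} [CommGroup V] [Finite V] {q : ℕ}
    [hq : Fact q.Prime] (hVc : Nat.card V = q ^ 2) (hV : ∀ x : V, x ^ q = 1)
    {P : Type u} [CommGroup P] (ρ : P →* MulAut V) (hρ : ∀ g, ρ (g ^ (q - 1)) = 1) :
    ∃ (a b : V) (χ : P →* (ZMod q)ˣ), a ≠ 1 ∧ b ≠ 1 ∧ zpowers a ⊓ zpowers b = ⊥ ∧
      (∀ g, ρ g a ∈ zpowers a) ∧ (∀ g, ρ g b ∈ zpowers b) ∧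
      ∀ c, χ c = 1 → ρ c (a * b) ∈ zpowers (a * b) := by
  have hq1 := hq.out.one_lt
  obtain ⟨p, hpdef⟩ : ∃ p, p = q - 1 := ⟨_, rfl⟩
  have hp0 : 0 < p := by omega
  have hpltq : p < q := by omega
  rw [← hpdef] at hρ
  have hpq : p ∣ q - 1 := by rw [← hpdef]
  have hVnt : Nontrivial V := by
    rw [← Finite.one_lt_card_iff_nontrivial, hVc]
    exact Nat.one_lt_pow (by norm_num) hq1
  by_cases hS : ∀ (g : P) (x : V), ρ g x ∈ zpowers x
  · obtain ⟨a, ha⟩ := exists_ne (1 : V)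
    obtain ⟨b, hb, hab⟩ := exists_indep hq.out hVc hV a ha
    exact ⟨a, b, 1, ha, hb, hab, fun g => hS g a, fun g => hS g b, fun c _ => hS c _⟩
  push Not at hS
  obtain ⟨g, x₀, hx₀⟩ := hS
  have hit : ∀ (h : P) (k : ℕ) (x : V), ((ρ h).toMonoidHom)^[k] x = ρ (h ^ k) x := by
    intro h k
    induction k with
    | zero => intro x; simp
    | succ k ih =>
      intro x
      rw [Function.iterate_succ_apply, ih, pow_succ, map_mul, MulAut.mul_apply]
      rfl
  obtain ⟨a, ha, l, hl⟩ := eig hV hpq (ρ g).toMonoidHom (fun x => by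
    rw [hit, hρ]; simp)
  have hl' : ρ g a = a ^ l := hl
  have hao := order_eq hq.out a (hV a) ha
  let φ : V →* V := (ρ g).toMonoidHom / powMonoidHom l
  have hφ : ∀ x, φ x = ρ g x / x ^ l := fun x => rfl
  have hφc : ∀ (h : P) (x : V), φ (ρ h x) = ρ h (φ x) := by
    intro h x
    rw [hφ, hφ, _root_.map_div, map_pow]
    have : ρ g (ρ h x) = ρ h (ρ g x) := by
      rw [← MulAut.mul_apply, ← MulAut.mul_apply, ← map_mul, ← map_mul, mul_comm]
    rw [this]
  have hEI : Nat.card φ.ker * Nat.card φ.range = q ^ 2 := by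
    rw [← hVc, ← Subgroup.index_ker]; exact φ.ker.card_mul_index
  have haE : a ∈ φ.ker := by
    rw [MonoidHom.mem_ker, hφ, hl', div_self']
  have hEne : φ.ker ≠ ⊤ := by
    intro h
    have h1 : x₀ ∈ φ.ker := by rw [h]; trivial
    rw [MonoidHom.mem_ker, hφ, div_eq_one] at h1
    apply hx₀
    rw [h1]
    exact pow_mem (mem_zpowers x₀) l
  have hEc : Nat.card φ.ker = q := by
    obtain ⟨k, hk, hk'⟩ := (Nat.dvd_prime_pow hq.out).1 (Dvd.intro _ hEI)
    interval_cases k
    · exfalso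
      have h1 : φ.ker = ⊥ := Subgroup.card_eq_one.1 (by simpa using hk')
      rw [h1, mem_bot] at haE
      exact ha haE
    · simpa using hk'
    · exfalso
      exact hEne (Subgroup.eq_top_of_card_eq _ (by rw [hk', hVc]))
  have hIc : Nat.card φ.range = q := by
    rw [hEc, sq] at hEI
    exact Nat.eq_of_mul_eq_mul_left hq.out.pos hEI
  have hEa : φ.ker = zpowers a := by
    symm
    apply Subgroup.eq_of_le_of_card_ge
    · rw [zpowers_le]; exact haE
    · rw [hEc, Nat.card_zpowers, hao]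
  obtain ⟨b, hbI, hb⟩ : ∃ b ∈ φ.range, b ≠ 1 := by
    by_contra h
    push Not at h
    have h1 : φ.range = ⊥ := by
      rw [eq_bot_iff]; intro z hz; rw [mem_bot]; exact h z hz
    rw [h1, Subgroup.card_bot] at hIc
    omega
  have hbo := order_eq hq.out b (hV b) hb
  have hIb : φ.range = zpowers b := by
    symm
    apply Subgroup.eq_of_le_of_card_ge
    · rw [zpowers_le]; exact hbI
    · rw [hIc, Nat.card_zpowers, hbo]
  -- the two lines are different
  have hlp : l ^ p ≡ 1 [MOD q] := by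
    have h1 : ∀ k : ℕ, ρ (g ^ k) a = a ^ (l ^ k) := by
      intro k
      induction k with
      | zero => simp
      | succ k ih =>
        rw [pow_succ, map_mul, MulAut.mul_apply, hl', map_pow, ih, ← pow_mul, pow_succ]
    have h2 := h1 p
    rw [hρ] at h2
    have h3 : a ^ 1 = a ^ (l ^ p) := by rw [pow_one]; exact h2
    rw [pow_eq_pow_iff_modEq, hao] at h3
    exact h3.symm
  have hql : ¬ q ∣ l := by
    intro h
    have h1 : l ^ p ≡ 0 [MOD q] := (Nat.modEq_zero_iff_dvd).2 (h.trans (dvd_pow_self l hp0.ne'))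
    have h2 := hlp.symm.trans h1
    rw [Nat.modEq_zero_iff_dvd] at h2
    exact hq.out.one_lt.ne' (Nat.dvd_one.1 h2)
  have hbE : b ∉ zpowers a := by
    rw [← hEa]
    intro hbk
    obtain ⟨x, hx⟩ := hbI
    have e1 : ρ g x = x ^ l * b := by
      rw [← hx, hφ]; simp
    have e2 : ρ g b = b ^ l := by
      rw [MonoidHom.mem_ker, hφ, div_eq_one] at hbk
      exact hbk
    have h1 : ∀ k : ℕ, ρ (g ^ (k + 1)) x = x ^ (l ^ (k + 1)) * b ^ ((k + 1) * l ^ k) := by
      intro k
      induction k with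
      | zero => simp [e1]
      | succ k ih =>
        rw [pow_succ', map_mul, MulAut.mul_apply, ih, map_mul, map_pow, map_pow, e1, e2, mul_pow,
          ← pow_mul, ← pow_mul, mul_assoc, ← pow_add]
        congr 2 <;> ring
    obtain ⟨k, rfl⟩ : ∃ k, p = k + 1 := ⟨p - 1, by omega⟩
    have h2 := h1 k
    rw [hρ] at h2
    have h3 : x ^ (l ^ (k + 1)) = x := by
      have h4 : x ^ (l ^ (k + 1)) = x ^ 1 := by
        rw [pow_eq_pow_iff_modEq]
        exact hlp.of_dvd (orderOf_dvd_of_pow_eq_one (hV x))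
      rw [h4, pow_one]
    rw [h3] at h2
    have h5 : b ^ ((k + 1) * l ^ k) = 1 := by
      have h6 : x = x * b ^ ((k + 1) * l ^ k) := h2
      exact (mul_eq_left.1 h6.symm)
    have h6 : q ∣ (k + 1) * l ^ k := by rw [← hbo]; exact orderOf_dvd_of_pow_eq_one h5
    rcases hq.out.dvd_mul.1 h6 with h7 | h7
    · have := Nat.le_of_dvd (by omega) h7
      omega
    · exact hql (hq.out.dvd_of_dvd_pow h7)
  have hab := zpowers_inf_bot hq.out a b hao hbo hbE
  have hga : ∀ h, ρ h a ∈ zpowers a := by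
    intro h
    rw [← hEa, MonoidHom.mem_ker, hφc]
    rw [MonoidHom.mem_ker] at haE
    rw [haE, map_one]
  have hgb : ∀ h, ρ h b ∈ zpowers b := by
    intro h
    rw [← hIb]
    obtain ⟨x, hx⟩ := hbI
    exact ⟨ρ h x, by rw [hφc, hx]⟩
  have hnat : ∀ (a : V), (∀ h, ρ h a ∈ zpowers a) → ∀ h, ∃ n : ℕ, ρ h a = a ^ n := by
    intro a hga h
    have h1 := hga h
    rw [← mem_powers_iff_mem_zpowers] at h1
    obtain ⟨n, hn⟩ := (Submonoid.mem_powers_iff _ _).1 h1
    exact ⟨n, hn.symm⟩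
  obtain ⟨α, hα⟩ := chi ρ a hao (hnat a hga)
  obtain ⟨β, hβ⟩ := chi ρ b hbo (hnat b hgb)
  refine ⟨a, b, α.toHomUnits / β.toHomUnits, ha, hb, hab, hga, hgb, fun c hc => ?_⟩
  have h1 : α.toHomUnits c / β.toHomUnits c = 1 := hc
  rw [div_eq_one] at h1
  have h2 : α c = β c := congrArg Units.val h1
  rw [map_mul, hα, hβ, h2, ← mul_pow]
  exact pow_mem (mem_zpowers _) _

/-- an abelian group of order `m ^ 2` and exponent dividing `m`, `m` squarefree: an element of
order `m` in the kernel of a character, and a complement -/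
theorem exists_gens {T : Type u} [CommGroup T] [Finite T] {m q : ℕ} [hq : Fact q.Prime]
    (hm : Squarefree m) (hTc : Nat.card T = m ^ 2) (hTe : ∀ t : T, t ^ m = 1)
    (χ : T →* (ZMod q)ˣ) :
    ∃ c d : T, χ c = 1 ∧ orderOf c = m ∧ orderOf d = m ∧ zpowers c ⊓ zpowers d = ⊥ := by
  have hm0 : 0 < m := Nat.pos_of_ne_zero hm.ne_zero
  -- elements of order m in groups divisible by m
  have key : ∀ (H : Type u) [CommGroup H] [Finite H], m ∣ Nat.card H → (∀ t : H, t ^ m = 1) →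
      ∃ c : H, orderOf c = m := by
    intro H _ _ hdiv hexp
    obtain ⟨c, hc⟩ := Monoid.exists_orderOf_eq_exponent (G := H) Monoid.ExponentExists.of_finite
    refine ⟨c, ?_⟩
    rw [hc]
    apply Nat.dvd_antisymm
    · exact Monoid.exponent_dvd_of_forall_pow_eq_one hexp
    · rw [← Nat.prod_primeFactors_of_squarefree hm]
      apply Finset.prod_primes_dvd
      · intro p hp
        exact (Nat.prime_of_mem_primeFactors hp).prime
      · intro p hp
        have hpp := Nat.prime_of_mem_primeFactors hp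
        have : Fact p.Prime := ⟨hpp⟩
        obtain ⟨x, hx⟩ := exists_prime_orderOf_dvd_card' (G := H) p
          ((Nat.dvd_of_mem_primeFactors hp).trans hdiv)
        rw [← hx]
        exact Monoid.order_dvd_exponent x
  have hker : m ∣ Nat.card χ.ker := by
    have h1 := χ.ker.card_mul_index
    rw [Subgroup.index_ker, hTc] at h1
    have h2 : Nat.card χ.range ∣ m := by
      rw [← IsCyclic.exponent_eq_card]
      apply Monoid.exponent_dvd_of_forall_pow_eq_one
      rintro ⟨_, t, rfl⟩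
      apply Subtype.ext
      show (χ t) ^ m = 1
      rw [← map_pow, hTe, map_one]
    obtain ⟨k, hk⟩ := h2
    have h3 : 0 < Nat.card χ.range := Nat.card_pos
    refine ⟨k, ?_⟩
    have h4 : Nat.card χ.ker * Nat.card χ.range = (m * k) * Nat.card χ.range := by
      rw [h1]
      calc m ^ 2 = m * m := sq m
        _ = m * (Nat.card χ.range * k) := by rw [← hk]
        _ = _ := by ring
    exact Nat.eq_of_mul_eq_mul_right h3 h4
  obtain ⟨c, hc⟩ := key χ.ker hker (fun t => Subtype.ext (hTe t))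
  have hco : orderOf (c : T) = m := by rw [Subgroup.orderOf_coe, hc]
  have hidx : Nat.card (T ⧸ zpowers (c : T)) = m := by
    have h1 := (zpowers (c : T)).card_mul_index
    rw [Nat.card_zpowers, hco, hTc, sq] at h1
    exact Nat.eq_of_mul_eq_mul_left hm0 h1
  obtain ⟨d', hd'⟩ := key (T ⧸ zpowers (c : T)) (by rw [hidx]) (fun t => by
    obtain ⟨t, rfl⟩ := QuotientGroup.mk_surjective t
    rw [← QuotientGroup.mk_pow, hTe]; rfl)
  obtain ⟨d, rfl⟩ := QuotientGroup.mk_surjective d'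
  have hdo : orderOf d = m := by
    apply Nat.dvd_antisymm (orderOf_dvd_of_pow_eq_one (hTe d))
    rw [← hd']
    exact orderOf_map_dvd (QuotientGroup.mk' (zpowers (c : T))) d
  refine ⟨c, d, c.2, hco, hdo, ?_⟩
  rw [eq_bot_iff]
  rintro z ⟨hz1, hz2⟩
  obtain ⟨n, rfl⟩ := mem_zpowers_iff.1 hz2
  have h1 : (QuotientGroup.mk d : T ⧸ zpowers (c : T)) ^ n = 1 := by
    rw [← QuotientGroup.mk_zpow]
    exact (QuotientGroup.eq_one_iff _).2 hz1
  have h2 : (m : ℤ) ∣ n := by rw [← hd']; exact orderOf_dvd_iff_zpow_eq_one.2 h1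
  rw [mem_bot]
  apply orderOf_dvd_iff_zpow_eq_one.1
  rw [hdo]; exact h2

/-- third cyclic subgroup -/
theorem third2 {H : Type u} [Group H] (m : ℕ) (c d : H) (hcd : Commute c d)
    (hc : orderOf c = m) (hd : orderOf d = m) (hi : zpowers c ⊓ zpowers d = ⊥) :
    orderOf (c * d) = m ∧ zpowers c ⊓ zpowers (c * d) = ⊥ ∧ zpowers d ⊓ zpowers (c * d) = ⊥ := by
  have key : ∀ n : ℤ, (c * d) ^ n ∈ zpowers c → (c * d) ^ n = 1 := by
    intro n hn
    rw [hcd.mul_zpow] at hn ⊢
    have h1 : d ^ n ∈ zpowers c := by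
      have : d ^ n = (c ^ n)⁻¹ * (c ^ n * d ^ n) := by group
      rw [this]
      exact mul_mem (inv_mem (zpow_mem (mem_zpowers c) n)) hn
    have h2 : d ^ n ∈ zpowers c ⊓ zpowers d := ⟨h1, zpow_mem (mem_zpowers d) n⟩
    rw [hi, mem_bot] at h2
    have h3 : ((orderOf d : ℕ) : ℤ) ∣ n := orderOf_dvd_iff_zpow_eq_one.2 h2
    rw [hd, ← hc] at h3
    rw [h2, orderOf_dvd_iff_zpow_eq_one.1 h3, one_mul]
  have key2 : ∀ n : ℤ, (c * d) ^ n ∈ zpowers d → (c * d) ^ n = 1 := by
    intro n hn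
    rw [hcd.mul_zpow] at hn ⊢
    have h1 : c ^ n ∈ zpowers d := by
      have : c ^ n = (c ^ n * d ^ n) * (d ^ n)⁻¹ := by group
      rw [this]
      exact mul_mem hn (inv_mem (zpow_mem (mem_zpowers d) n))
    have h2 : c ^ n ∈ zpowers c ⊓ zpowers d := ⟨zpow_mem (mem_zpowers c) n, h1⟩
    rw [hi, mem_bot] at h2
    have h3 : ((orderOf c : ℕ) : ℤ) ∣ n := orderOf_dvd_iff_zpow_eq_one.2 h2
    rw [hc, ← hd] at h3
    rw [h2, orderOf_dvd_iff_zpow_eq_one.1 h3, one_mul]
  refine ⟨?_, ?_, ?_⟩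
  · apply Nat.dvd_antisymm
    · apply orderOf_dvd_of_pow_eq_one
      rw [hcd.mul_pow, ← hc, pow_orderOf_eq_one, hc, ← hd, pow_orderOf_eq_one, one_mul]
    · rw [← hd]
      apply orderOf_dvd_of_pow_eq_one
      have h1 : (c * d) ^ orderOf (c * d) = 1 := pow_orderOf_eq_one _
      rw [hcd.mul_pow] at h1
      have h2 : d ^ orderOf (c * d) ∈ zpowers c ⊓ zpowers d := by
        refine ⟨?_, pow_mem (mem_zpowers d) _⟩
        have : d ^ orderOf (c * d) = (c ^ orderOf (c * d))⁻¹ := eq_inv_of_mul_eq_one_right h1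
        rw [this]
        exact (zpowers c).inv_mem ((zpowers c).pow_mem (mem_zpowers c) _)
      rw [hi, mem_bot] at h2
      exact h2
  · rw [eq_bot_iff]
    rintro z ⟨hz1, hz2⟩
    obtain ⟨n, rfl⟩ := mem_zpowers_iff.1 hz2
    rw [mem_bot]; exact key n hz1
  · rw [eq_bot_iff]
    rintro z ⟨hz1, hz2⟩
    obtain ⟨n, rfl⟩ := mem_zpowers_iff.1 hz2
    rw [mem_bot]; exact key2 n hz1

end Pool.Agent.Helper354.Pcp
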