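import Mathlib
import Pool.Agent.Helper354.Pcp.Metab

set_option autoImplicit false

namespace Pool.Agent.Helper354.Pcp

open Subgroup
open scoped commutatorElement

universe u

theorem rigid {T : Type u} [Group T] {p q : ℕ} (hp : p.Prime) [hq : Fact q.Prime]
    (hT : Nat.card T = q) (hpq : ¬ p ∣ q - 1) (f : T →* T) (hf : ∀ x, f^[p] x = x) (x : T) :
    f x = x := by
  have hc : IsCyclic T := isCyclic_of_prime_card (p := q) hT
  have hfin : Finite T := Nat.finite_of_card_ne_zero (by rw [hT]; exact hq.out.ne_zero)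
  obtain ⟨m, hm⟩ := MonoidHom.map_cyclic f
  have hk : ∀ (k : ℕ) (y : T), f^[k] y = y ^ (m ^ k) := by
    intro k
    induction k with
    | zero => intro y; simp
    | succ k ih =>
      intro y
      rw [Function.iterate_succ_apply, ih, hm, ← zpow_mul, pow_succ, mul_comm]
  obtain ⟨y, hy⟩ : ∃ y : T, y ≠ 1 := by
    have : Nontrivial T := by
      rw [← Finite.one_lt_card_iff_nontrivial, hT]
      exact hq.out.one_lt
    exact exists_ne 1
  have hyo : orderOf y = q := by
    have h1 : orderOf y ∣ q := by rw [← hT]; exact orderOf_dvd_natCard y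
    rcases (Nat.dvd_prime hq.out).1 h1 with h | h
    · exact absurd (orderOf_eq_one_iff.1 h) hy
    · exact h
  have h1 : y ^ (m ^ p) = y ^ (1 : ℤ) := by rw [← hk, hf, zpow_one]
  rw [zpow_eq_zpow_iff_modEq, hyo] at h1
  have h2 : ((m : ZMod q)) ^ p = 1 := by
    have := (ZMod.intCast_eq_intCast_iff _ _ q).2 h1
    push_cast at this
    exact this
  have hm0 : (m : ZMod q) ≠ 0 := by
    intro h0
    rw [h0, zero_pow hp.ne_zero] at h2
    exact zero_ne_one h2
  have h3 : (m : ZMod q) ^ (q - 1) = 1 := ZMod.pow_card_sub_one_eq_one hm0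
  have h4 : orderOf (m : ZMod q) ∣ Nat.gcd p (q - 1) :=
    Nat.dvd_gcd (orderOf_dvd_of_pow_eq_one h2) (orderOf_dvd_of_pow_eq_one h3)
  have h5 : Nat.gcd p (q - 1) = 1 := (hp.coprime_iff_not_dvd.2 hpq)
  rw [h5, Nat.dvd_one, orderOf_eq_one_iff] at h4
  have h6 : m ≡ 1 [ZMOD q] := by
    rw [← ZMod.intCast_eq_intCast_iff, h4]; simp
  rw [hm x]
  have h7 : x ^ m = x ^ (1 : ℤ) := by
    rw [zpow_eq_zpow_iff_modEq]
    have h8 : orderOf x ∣ q := by rw [← hT]; exact orderOf_dvd_natCard x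
    exact h6.of_dvd (by exact_mod_cast h8)
  rw [h7, zpow_one]

theorem exp_lemma {H : Type u} [Group H] [Finite H] {r : ℕ} [hr : Fact r.Prime]
    (hH : Nat.card H = r ^ 2) (A B : Subgroup H) (hA : Nat.card A = r) (hB : Nat.card B = r)
    (hd : A ⊓ B = ⊥) (z : H) : z ^ r = 1 := by
  have h1 := IsPGroup.isMulCommutative_of_card_eq_prime_sq hH
  obtain ⟨a, ha, b, hb, rfl⟩ := fac_of_pcp (by rw [hA, hB, hH, sq]) hd z
  have h2 : Commute a b := h1.is_comm.comm a b
  have h3 : a ^ r = 1 := by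
    have h4 : (⟨a, ha⟩ : A) ^ r = 1 := by rw [← hA]; exact pow_card_eq_one'
    exact congrArg Subtype.val h4
  have h5 : b ^ r = 1 := by
    have h4 : (⟨b, hb⟩ : B) ^ r = 1 := by rw [← hB]; exact pow_card_eq_one'
    exact congrArg Subtype.val h4
  rw [h2.mul_pow, h3, h5, one_mul]

theorem cent {G : Type u} [Group G] [Finite G] (Q A : Subgroup G) [hQn : Q.Normal]
    {p q : ℕ} (hp : p.Prime) [hq : Fact q.Prime] (hQ2 : Nat.card Q = q ^ 2)
    (hQi : ¬ q ∣ Q.index) (hA : Nat.card A = p * q)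
    (hAQ : Nat.card (A ⊓ Q : Subgroup G) = q) (hpq : ¬ p ∣ q - 1) (u : G) (hu : u ∈ A) :
    ∀ x ∈ Q, Commute u x := by
  have hQp : IsPGroup q Q := IsPGroup.of_card hQ2
  have hQc : ∀ x ∈ Q, ∀ y ∈ Q, x * y = y * x := by
    have h1 := IsPGroup.isMulCommutative_of_card_eq_prime_sq hQ2
    intro x hx y hy
    exact congrArg Subtype.val (h1.is_comm.comm ⟨x, hx⟩ ⟨y, hy⟩)
  have hup : u ^ p ∈ Q := by
    have h1 : Nat.card (Q.subgroupOf A) = q := by
      rw [← Subgroup.card_map_of_injective (K := Q.subgroupOf A) A.subtype_injective,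
        Subgroup.subgroupOf_map_subtype, inf_comm, hAQ]
    have h2 := (Q.subgroupOf A).card_mul_index
    rw [h1, hA, mul_comm p q] at h2
    have h3 : (Q.subgroupOf A).index = p := Nat.eq_of_mul_eq_mul_left hq.out.pos h2
    have h4 := (Q.subgroupOf A).pow_index_mem ⟨u, hu⟩
    rw [h3] at h4
    exact h4
  let T : Subgroup G := A ⊓ Q
  have hTconj : ∀ z ∈ T, u * z * u⁻¹ ∈ T := fun z hz =>
    ⟨A.mul_mem (A.mul_mem hu hz.1) (A.inv_mem hu), hQn.conj_mem z hz.2 u⟩
  have hc1 : ∀ z ∈ T, Commute u z := by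
    intro z hz
    let f : T →* T :=
      { toFun := fun z => ⟨u * z * u⁻¹, hTconj z z.2⟩
        map_one' := by apply Subtype.ext; simp
        map_mul' := by
          intro a b
          apply Subtype.ext
          show u * ((a : G) * b) * u⁻¹ = (u * a * u⁻¹) * (u * b * u⁻¹)
          group }
    have hfk : ∀ (k : ℕ) (y : T), ((f^[k] y : T) : G) = u ^ k * y * (u ^ k)⁻¹ := by
      intro k
      induction k with
      | zero => intro y; simp
      | succ k ih =>
        intro y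
        rw [Function.iterate_succ_apply, ih]
        show u ^ k * (u * (y : G) * u⁻¹) * (u ^ k)⁻¹ = u ^ (k + 1) * y * (u ^ (k + 1))⁻¹
        rw [pow_succ]; group
    have h1 := rigid hp hAQ hpq f (fun y => by
      apply Subtype.ext
      rw [hfk, hQc _ hup _ y.2.2]; group) ⟨z, hz⟩
    have h2 : u * z * u⁻¹ = z := congrArg Subtype.val h1
    show u * z = z * u
    calc u * z = (u * z * u⁻¹) * u := by group
      _ = z * u := by rw [h2]
  let N : Subgroup Q := A.subgroupOf Q
  have hNn : N.Normal := by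
    constructor
    intro a ha b
    have : b * a * b⁻¹ = a := by
      have h1 : b * a = a * b := Subtype.ext (hQc b b.2 a a.2)
      rw [h1]; group
    rw [this]; exact ha
  have hNc : Nat.card N = q := by
    rw [← Subgroup.card_map_of_injective (K := A.subgroupOf Q) Q.subtype_injective,
      Subgroup.subgroupOf_map_subtype, hAQ]
  have hNi : Nat.card (Q ⧸ N) = q := by
    have h1 := N.card_mul_index
    rw [hNc, hQ2, sq] at h1
    exact Nat.eq_of_mul_eq_mul_left hq.out.pos h1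
  have hle : N ≤ N.comap (MulAut.conjNormal u : MulAut Q).toMonoidHom := by
    intro z hz
    have hz' : (z : G) ∈ A := hz
    show ((MulAut.conjNormal u z : Q) : G) ∈ A
    rw [MulAut.conjNormal_apply]
    exact A.mul_mem (A.mul_mem hu hz') (A.inv_mem hu)
  let F : Q ⧸ N →* Q ⧸ N := QuotientGroup.map N N (MulAut.conjNormal u : MulAut Q).toMonoidHom hle
  have hFk : ∀ (k : ℕ) (y : Q), F^[k] (QuotientGroup.mk y) =
      QuotientGroup.mk (MulAut.conjNormal (u ^ k) y) := by
    intro k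
    induction k with
    | zero => intro y; simp
    | succ k ih =>
      intro y
      rw [Function.iterate_succ_apply]
      have h1 : F (QuotientGroup.mk y) = QuotientGroup.mk (MulAut.conjNormal u y) := rfl
      rw [h1, ih, pow_succ, map_mul, MulAut.mul_apply]
  have hc2 : ∀ x ∈ Q, ⁅u, x⁆ ∈ A := by
    intro x hx
    have h1 := rigid hp hNi hpq F (fun y => by
      obtain ⟨y, rfl⟩ := QuotientGroup.mk_surjective y
      rw [hFk]
      have h2 : MulAut.conjNormal (u ^ p) y = y := by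
        apply Subtype.ext
        rw [MulAut.conjNormal_apply, hQc _ hup _ y.2]; group
      rw [h2]) (QuotientGroup.mk ⟨x, hx⟩)
    have h2 : (QuotientGroup.mk (MulAut.conjNormal u ⟨x, hx⟩) : Q ⧸ N) =
        QuotientGroup.mk ⟨x, hx⟩ := h1
    rw [QuotientGroup.eq] at h2
    have h3 : (((MulAut.conjNormal u (⟨x, hx⟩ : Q))⁻¹ * ⟨x, hx⟩ : Q) : G) ∈ A := h2
    have h4 : (((MulAut.conjNormal u (⟨x, hx⟩ : Q))⁻¹ * ⟨x, hx⟩ : Q) : G) =
        (u * x * u⁻¹)⁻¹ * x := by
      simp only [Subgroup.coe_mul, Subgroup.coe_inv, MulAut.conjNormal_apply]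
    rw [h4] at h3
    have h5 : ⁅u, x⁆ = ((u * x * u⁻¹)⁻¹ * x)⁻¹ := by
      have h1 : u * x * u⁻¹ ∈ Q := hQn.conj_mem x hx _
      rw [mul_inv_rev, inv_inv, hQc _ (Q.inv_mem hx) _ h1]
      rfl
    rw [h5]
    exact A.inv_mem h3
  intro x hx
  have hwx : ⁅u, x⁆ ∈ Q := by
    rw [commutatorElement_def]
    exact Q.mul_mem (hQn.conj_mem x hx _) (Q.inv_mem hx)
  exact trick Q hQp hQi _ x hwx (hc1 _ ⟨hc2 x hx, hwx⟩) (fun m hm => hQc m hm x hx)

end Pool.Agent.Helper354.Pcp
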